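import Pool.Agent.U587.PT.Tr
import Pool.Agent.Y274.MC.Regc
import Pool.Agent.Y48.MC.Flwb

set_option autoImplicit false

/-!
Transfer from Lipschitz families to all bounded functions, almost everywhere.
-/

namespace Pool.Agent.U587.PT

open MeasureTheory Filter Finset
open Pool.Agent.Y957.MC (IsFlow Mod Adm flowInv smo)
open Pool.Agent.Y312.MC (flowInv_le ii_orb)
open Pool.Agent.U587.ET (prod_diff_c norm_prod_le_one exists_small)
open Pool.Agent.R235.TD (flow_scale)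
open scoped Topology ENNReal

universe u

/-- integrals along polynomials, both signs -/
theorem regc_poly {P : Polynomial ℝ} (hd : 0 < P.natDegree) : ∃ K : ℝ, 0 < K ∧ ∀ a s : ℝ, 0 < s * (a * P.leadingCoeff) →
    ∀ G : ℝ → ℂ, Continuous G → (∀ v, ‖G v‖ ≤ 1) → ∀ (L : ℂ) (η : ℝ), 0 ≤ η →
    (∀ᶠ V : ℝ in atTop, ‖(1 / (V : ℂ)) * (∫ v in (0 : ℝ)..V, G (s * v)) - L‖ ≤ η) → ∀ ε : ℝ, 0 < ε →
    ∀ᶠ N : ℕ in atTop, ‖(1 / (N : ℂ)) * (∫ v in (0 : ℝ)..N, G (a * P.eval v)) - L‖ ≤ ε + K * η := by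
  rcases lt_trichotomy 0 P.leadingCoeff with hl | hl | hl
  · obtain ⟨K, hK, h⟩ := Pool.Agent.Y274.MC.regc (fun v => P.eval v) (Pool.Agent.Y571.MC.poly P hd hl)
      P.continuous.measurable
    refine ⟨K, hK, fun a s hs G hG hG1 L η hη hV ε hε => ?_⟩
    have hs0 : s ≠ 0 := by rintro rfl; simp at hs
    have has : 0 < s⁻¹ * a := by
      have h1 : 0 < s * a := by
        by_contra hc
        have : s * (a * P.leadingCoeff) ≤ 0 := by
          rw [← mul_assoc]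
          exact mul_nonpos_of_nonpos_of_nonneg (not_lt.1 hc) hl.le
        linarith
      have h2 : s⁻¹ * a = (s * a) * (s⁻¹ ^ 2) := by field_simp
      rw [h2]
      positivity
    have h1 := h (s⁻¹ * a) has (fun v => G (s * v)) (hG.comp (continuous_const.mul continuous_id)) (fun v => hG1 _) L η hη
      hV ε hε
    filter_upwards [h1] with N hN
    have e : ∀ v : ℝ, s * (s⁻¹ * a * P.eval v) = a * P.eval v := fun v => by field_simp
    simpa only [e] using hN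
  · exfalso
    have := Polynomial.leadingCoeff_eq_zero.1 hl.symm
    rw [this] at hd
    simp at hd
  · obtain ⟨K, hK, h⟩ := Pool.Agent.Y274.MC.regc (fun v => (-P).eval v) (Pool.Agent.Y571.MC.poly (-P)
      (by rwa [Polynomial.natDegree_neg]) (by rw [Polynomial.leadingCoeff_neg]; linarith)) (-P).continuous.measurable
    refine ⟨K, hK, fun a s hs G hG hG1 L η hη hV ε hε => ?_⟩
    have hs0 : s ≠ 0 := by rintro rfl; simp at hs
    have has : 0 < -(s⁻¹ * a) := by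
      have h1 : 0 < -(s * a) := by
        by_contra hc
        have : s * (a * P.leadingCoeff) ≤ 0 := by
          rw [← mul_assoc]
          exact mul_nonpos_of_nonneg_of_nonpos (by linarith) hl.le
        linarith
      have h2 : -(s⁻¹ * a) = (-(s * a)) * (s⁻¹ ^ 2) := by field_simp
      rw [h2]
      positivity
    have h1 := h (-(s⁻¹ * a)) has (fun v => G (s * v)) (hG.comp (continuous_const.mul continuous_id)) (fun v => hG1 _)
      L η hη hV ε hε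
    filter_upwards [h1] with N hN
    have e : ∀ v : ℝ, s * (-(s⁻¹ * a) * (-P).eval v) = a * P.eval v := fun v => by
      rw [Polynomial.eval_neg]
      field_simp
    simpa only [e] using hN

variable {X : Type u} [mX : MeasurableSpace X] {μ : Measure X} {n : ℕ} {τ : Fin n → ℝ → X → X}

/-- approximation almost everywhere -/
theorem tr_ae [IsProbabilityMeasure μ] (hτ : ∀ j, IsFlow μ (τ j)) {P : Polynomial ℝ} {a : ℝ}
    (hS : ∀ j, DX.Sg μ (τ j) P a) {f : Fin n → X → ℂ}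
    (hf : ∀ j, Measurable (f j)) (hf1 : ∀ j x, ‖f j x‖ ≤ 1) {g : ℕ → Fin n → X → ℂ} (hg : ∀ i j, Measurable (g i j))
    (hg1 : ∀ i j x, ‖g i j x‖ ≤ 1) (hgl : ∀ i j, ∃ L : ℝ, ∀ u v x, ‖g i j (τ j u x) - g i j (τ j v x)‖ ≤ L * |u - v|)
    (hfg : ∀ j, Tendsto (fun i => ∫ x, ‖f j x - g i j x‖ ∂μ) atTop (𝓝 0))
    (h : ∀ i, Cl μ τ (g i) P a) {K s : ℝ} (hK : 0 < K) (hR : ∀ G : ℝ → ℂ, Continuous G → (∀ v, ‖G v‖ ≤ 1) →
      ∀ (L : ℂ) (η : ℝ), 0 ≤ η → (∀ᶠ V : ℝ in atTop, ‖(1 / (V : ℂ)) * (∫ v in (0 : ℝ)..V, G (s * v)) - L‖ ≤ η) →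
      ∀ ε : ℝ, 0 < ε → ∀ᶠ N : ℕ in atTop, ‖(1 / (N : ℂ)) * (∫ v in (0 : ℝ)..N, G (a * P.eval v)) - L‖ ≤ ε + K * η) :
    ∀ᵐ x ∂μ, ∀ L : ℂ, Tendsto (fun V : ℝ => (1 / (V : ℂ)) * ∫ v in (0 : ℝ)..V, pf τ f x (s * v)) atTop (𝓝 L) →
      Tendsto (fun N : ℕ => (1 / (N : ℂ)) * ∑ m ∈ Icc 1 N, pf τ f x (a * P.eval (m : ℝ))) atTop (𝓝 L) := by
  obtain ⟨E, hE⟩ : ∃ E : ℕ → Fin n → X → ℝ, ∀ i j, E i j = fun x => ‖f j x - g i j x‖ := ⟨_, fun i j => rfl⟩
  have hEm : ∀ i j, Measurable (E i j) := fun i j => by rw [hE]; exact ((hf j).sub (hg i j)).norm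
  have hEb : ∀ i j x, 0 ≤ E i j x ∧ E i j x ≤ 2 := fun i j x => by
    rw [hE]
    refine ⟨norm_nonneg _, (norm_sub_le _ _).trans ?_⟩
    linarith [hf1 j x, hg1 i j x]
  have hEb' : ∀ i j x, |E i j x| ≤ 2 := fun i j x => by rw [abs_of_nonneg (hEb i j x).1]; exact (hEb i j x).2
  choose H hHi hH0 hHI hHl using fun i j => DX.lim_int (hτ j) (hS j) (hEm i j) (hEb i j)
  have hσ : ∀ j, IsFlow μ (fun t => τ j (s * t)) := fun j => flow_scale (hτ j) s
  obtain ⟨Q, hQ⟩ : ∃ Q : ℕ → Fin n → X → ℝ, ∀ i j, Q i j = μ[E i j | flowInv (fun t => τ j (s * t))] :=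
    ⟨_, fun i j => rfl⟩
  have hQi : ∀ i j, Integrable (Q i j) μ := fun i j => by rw [hQ]; exact integrable_condExp
  have hQ0 : ∀ i j, 0 ≤ᵐ[μ] Q i j := fun i j => by
    rw [hQ]
    exact condExp_nonneg (ae_of_all _ fun x => (hEb i j x).1)
  have hQI : ∀ i j, ∫ x, Q i j x ∂μ = ∫ x, E i j x ∂μ := fun i j => by
    rw [hQ]
    exact integral_condExp (flowInv_le _)
  have hQl : ∀ i j, ∀ᵐ x ∂μ, Tendsto (fun V : ℝ => smo (fun t => τ j (s * t)) (E i j) V x) atTop (𝓝 (Q i j x)) := by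
    intro i j
    rw [hQ]
    exact Pool.Agent.Y48.MC.flwb X μ _ (E i j) (hσ j) (hEm i j) ⟨2, hEb' i j⟩
  obtain ⟨Ψ, hΨ⟩ : ∃ Ψ : ℕ → X → ℝ, ∀ i, Ψ i = fun x => ∑ j, (H i j x + Q i j x) := ⟨_, fun i => rfl⟩
  have hΨ0 : ∀ i, 0 ≤ᵐ[μ] Ψ i := by
    intro i
    filter_upwards [ae_all_iff.2 (hH0 i), ae_all_iff.2 (hQ0 i)] with x hx hx2
    rw [hΨ]
    exact Finset.sum_nonneg fun j _ => add_nonneg (hx j) (hx2 j)
  have hHQ : ∀ i j, Integrable (fun x => H i j x + Q i j x) μ := fun i j => (hHi i j).add (hQi i j)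
  have hΨi : ∀ i, Integrable (Ψ i) μ := fun i => by
    rw [hΨ]
    exact integrable_finsetSum _ fun j _ => hHQ i j
  have hΨlim : Tendsto (fun i => ∫ x, Ψ i x ∂μ) atTop (𝓝 0) := by
    have h1 : ∀ i, ∫ x, Ψ i x ∂μ = ∑ j, (2 * ∫ x, ‖f j x - g i j x‖ ∂μ) := by
      intro i
      rw [hΨ]
      simp only
      rw [integral_finsetSum _ fun j _ => hHQ i j]
      refine Finset.sum_congr rfl fun j _ => ?_
      rw [integral_add (hHi i j) (hQi i j), hHI, hQI, hE]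
      ring
    simp only [h1]
    have := tendsto_finsetSum (Finset.univ : Finset (Fin n)) fun j _ => (hfg j).const_mul 2
    simpa using this
  filter_upwards [ae_all_iff.2 h, ae_all_iff.2 fun i => ae_all_iff.2 (hHl i), exists_small hΨ0 hΨi hΨlim,
    ae_all_iff.2 fun i => ae_all_iff.2 (hQl i), ae_all_iff.2 fun i => ae_all_iff.2 (hQ0 i)]
    with x hx1 hx2 hx3 hx4 hx5
  intro L hL
  rw [Metric.tendsto_nhds]
  intro ε' hε'
  obtain ⟨ε, hε⟩ : ∃ ε : ℝ, ε = ε' / (4 * (4 + 2 * K)) := ⟨_, rfl⟩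
  have hε0 : 0 < ε := by rw [hε]; positivity
  have hεR : (4 + 2 * K) * ε = ε' / 4 := by
    rw [hε]
    field_simp
  obtain ⟨k, hk⟩ := exists_nat_one_div_lt (show 0 < ε' / (4 * (1 + K)) by positivity)
  obtain ⟨i, hi⟩ := hx3 k
  have hi' : (1 + K) * Ψ i x ≤ ε' / 4 := by
    have : Ψ i x < ε' / (4 * (1 + K)) := hi.trans hk
    rw [lt_div_iff₀ (by positivity)] at this
    linarith
  obtain ⟨A, hA⟩ : ∃ A : ℝ, A = ∑ j, H i j x := ⟨_, rfl⟩
  obtain ⟨B, hB⟩ : ∃ B : ℝ, B = ∑ j, Q i j x := ⟨_, rfl⟩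
  have hAB : Ψ i x = A + B := by
    rw [hΨ, hA, hB]
    exact sum_add_distrib
  have hB0 : 0 ≤ B := by
    rw [hB]
    exact sum_nonneg fun j _ => hx5 i j
  have hA0 : 0 ≤ A := by
    rw [hA]
    refine sum_nonneg fun j _ => ?_
    exact ge_of_tendsto' (hx2 i j) fun N => mul_nonneg (by positivity) (sum_nonneg fun m _ => (hEb i j _).1)
  -- the continuous function
  obtain ⟨G, hG⟩ : ∃ G : ℝ → ℂ, G = pf τ (g i) x := ⟨_, rfl⟩
  have hG1 : ∀ v, ‖G v‖ ≤ 1 := fun v => by rw [hG]; exact pf_bd1 (hg1 i) x v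
  have hGc : Continuous G := by
    choose Lj hLj using hgl i
    have hnf : Nf τ (g i) Lj := ⟨hg i, hg1 i, fun j u v x => hLj j u v x⟩
    have hl : LipschitzWith (Real.toNNReal (∑ j, |Lj j|)) G := by
      apply LipschitzWith.of_dist_le_mul
      intro v w
      rw [dist_eq_norm, Real.dist_eq, Real.coe_toNNReal _ (sum_nonneg fun j _ => abs_nonneg _), hG]
      exact pf_lip hnf x v w
    exact hl.continuous
  have hsm : Measurable fun v : ℝ => s * v := measurable_const.mul measurable_id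
  -- continuous averages of `G`
  have hcs : Tendsto (fun V : ℝ => ∑ j, smo (fun t => τ j (s * t)) (E i j) V x) atTop (𝓝 B) := by
    rw [hB]
    exact tendsto_finsetSum _ fun j _ => hx4 i j
  have hcont : ∀ᶠ V : ℝ in atTop, ‖(1 / (V : ℂ)) * (∫ v in (0 : ℝ)..V, G (s * v)) - L‖ ≤ 2 * ε + B := by
    have h6 := (Metric.tendsto_nhds.1 hL) ε hε0
    have h7 := hcs.eventually (gt_mem_nhds (show B < B + ε by linarith))
    filter_upwards [h6, h7, eventually_gt_atTop (0 : ℝ)] with V hV1 hV2 hV0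
    rw [dist_eq_norm] at hV1
    have hPi := ii_pf hτ hf hf1 x hsm 0 V
    have hGi : IntervalIntegrable (fun v => G (s * v)) volume 0 V :=
      (hGc.comp (continuous_const.mul continuous_id)).intervalIntegrable _ _
    have e1 : (1 / (V : ℂ)) * (∫ v in (0 : ℝ)..V, G (s * v)) - L =
        ((1 / (V : ℂ)) * (∫ v in (0 : ℝ)..V, pf τ f x (s * v)) - L) -
          (1 / (V : ℂ)) * (∫ v in (0 : ℝ)..V, (pf τ f x (s * v) - G (s * v))) := by
      rw [intervalIntegral.integral_sub hPi hGi]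
      ring
    rw [e1]
    have e2 : ‖∫ v in (0 : ℝ)..V, (pf τ f x (s * v) - G (s * v))‖ ≤ ∫ v in (0 : ℝ)..V, DD τ f (g i) x (s * v) := by
      refine intervalIntegral.norm_integral_le_of_norm_le hV0.le ?_ (ii_DD hτ hf (hg i) hf1 (hg1 i) x hsm _ _)
      exact ae_of_all _ fun v _ => by rw [hG]; exact pf_sub hf1 (hg1 i) x _
    have e3 : ∫ v in (0 : ℝ)..V, DD τ f (g i) x (s * v) = V * ∑ j, smo (fun t => τ j (s * t)) (E i j) V x := by
      unfold DD smo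
      rw [intervalIntegral.integral_finsetSum, mul_sum]
      · refine sum_congr rfl fun j _ => ?_
        rw [← mul_assoc, mul_one_div_cancel hV0.ne', one_mul, hE]
      · intro j _
        have h8 := ii_orb (hσ j) (hEm i j) (hEb' i j) x 0 V
        rw [hE] at h8
        exact h8
    refine (norm_sub_le _ _).trans ?_
    have e4 : ‖(1 / (V : ℂ)) * (∫ v in (0 : ℝ)..V, (pf τ f x (s * v) - G (s * v)))‖ ≤ B + ε := by
      rw [norm_mul, norm_div, norm_one, Complex.norm_real, Real.norm_eq_abs, abs_of_pos hV0, one_div,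
        inv_mul_le_iff₀ hV0]
      refine e2.trans ?_
      rw [e3]
      exact mul_le_mul_of_nonneg_left hV2.le hV0.le
    linarith
  have hev2 := hR G hGc hG1 L _ (by positivity) hcont ε hε0
  have hev1 := (Metric.tendsto_nhds.1 (hx1 i)) ε hε0
  have hds : Tendsto (fun N : ℕ => ∑ j, (1 / (N : ℝ)) * ∑ m ∈ Icc 1 N, E i j (τ j (a * P.eval (m : ℝ)) x)) atTop
      (𝓝 A) := by
    rw [hA]
    exact tendsto_finsetSum _ fun j _ => hx2 i j
  have hev4 := hds.eventually (gt_mem_nhds (show A < A + ε by linarith))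
  filter_upwards [hev1, hev2, hev4] with N hN1 hN2 hN4
  rw [dist_zero_right] at hN1
  rw [dist_eq_norm]
  have hsplit : (1 / (N : ℂ)) * ∑ m ∈ Icc 1 N, pf τ f x (a * P.eval (m : ℝ)) - L =
      (1 / (N : ℂ)) * (∑ m ∈ Icc 1 N, pf τ (g i) x (a * P.eval (m : ℝ)) -
        ∫ v in (0 : ℝ)..N, pf τ (g i) x (a * P.eval v)) +
      ((1 / (N : ℂ)) * (∫ v in (0 : ℝ)..N, G (a * P.eval v)) - L) +
      (1 / (N : ℂ)) * ∑ m ∈ Icc 1 N, (pf τ f x (a * P.eval (m : ℝ)) - pf τ (g i) x (a * P.eval (m : ℝ))) := by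
    rw [Finset.sum_sub_distrib, hG]
    ring
  rw [hsplit]
  have hb1 : ‖(1 / (N : ℂ)) * ∑ m ∈ Icc 1 N, (pf τ f x (a * P.eval (m : ℝ)) - pf τ (g i) x (a * P.eval (m : ℝ)))‖ ≤
      ∑ j, (1 / (N : ℝ)) * ∑ m ∈ Icc 1 N, E i j (τ j (a * P.eval (m : ℝ)) x) := by
    rw [norm_mul, norm_div, norm_one, Complex.norm_natCast, ← mul_sum, sum_comm]
    refine mul_le_mul_of_nonneg_left ?_ (by positivity)
    refine (norm_sum_le _ _).trans (Finset.sum_le_sum fun m _ => (pf_sub hf1 (hg1 i) x _).trans (le_of_eq ?_))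
    unfold DD
    refine sum_congr rfl fun j _ => ?_
    rw [hE]
  have hfin : ε + (ε + K * (2 * ε + B)) + (A + ε) ≤ ε' / 4 + ε' / 4 := by
    have e1 : ε + (ε + K * (2 * ε + B)) + (A + ε) = (3 + 2 * K) * ε + (A + K * B) := by ring
    have e2 : (3 + 2 * K) * ε ≤ (4 + 2 * K) * ε := by nlinarith
    have e3 : A + K * B ≤ (1 + K) * Ψ i x := by
      rw [hAB]
      nlinarith [mul_nonneg hK.le hA0]
    rw [e1]
    linarith
  calc _ ≤ ‖(1 / (N : ℂ)) * (∑ m ∈ Icc 1 N, pf τ (g i) x (a * P.eval (m : ℝ)) -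
        ∫ v in (0 : ℝ)..N, pf τ (g i) x (a * P.eval v))‖ +
      ‖(1 / (N : ℂ)) * (∫ v in (0 : ℝ)..N, G (a * P.eval v)) - L‖ +
      ‖(1 / (N : ℂ)) * ∑ m ∈ Icc 1 N, (pf τ f x (a * P.eval (m : ℝ)) - pf τ (g i) x (a * P.eval (m : ℝ)))‖ :=
        (norm_add_le _ _).trans (add_le_add (norm_add_le _ _) le_rfl)
    _ ≤ ε + (ε + K * (2 * ε + B)) + (A + ε) :=
        add_le_add (add_le_add hN1.le hN2) (hb1.trans hN4.le)
    _ < ε' := by linarith

end Pool.Agent.U587.PT
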