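import Mathlib

set_option autoImplicit false

/-!
Averages of nonnegative measurable functions along polynomials.
-/

namespace Pool.Agent.U587.PT

open MeasureTheory Filter Finset
open scoped Topology

/-- size of a polynomial and its derivative -/
lemma poly_asym {P : Polynomial ℝ} (hd : 0 < P.natDegree) (hl : 0 < P.leadingCoeff) :
    ∃ v0 : ℝ, 1 ≤ v0 ∧ ∀ v, v0 ≤ v → 0 < P.eval v ∧ P.eval v ≤ 2 * P.leadingCoeff * v ^ P.natDegree ∧
      P.leadingCoeff / 2 * v ^ (P.natDegree - 1) ≤ P.derivative.eval v := by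
  have hP0 : P ≠ 0 := by rintro rfl; simp at hd
  have hX : ∀ n : ℕ, (Polynomial.X ^ n : Polynomial ℝ).leadingCoeff = 1 := fun n => Polynomial.leadingCoeff_X_pow n
  have h1 := Polynomial.div_tendsto_atTop_leadingCoeff_div_of_degree_eq P (Polynomial.X ^ P.natDegree)
    (by rw [Polynomial.degree_X_pow, Polynomial.degree_eq_natDegree hP0])
  have hdd : P.derivative.degree = ((P.natDegree - 1 : ℕ) : WithBot ℕ) := Polynomial.degree_derivative (by omega)
  have h2 := Polynomial.div_tendsto_atTop_leadingCoeff_div_of_degree_eq P.derivative (Polynomial.X ^ (P.natDegree - 1))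
    (by rw [Polynomial.degree_X_pow, hdd])
  have hnd : P.derivative.natDegree = P.natDegree - 1 := Polynomial.natDegree_eq_of_degree_eq_some hdd
  have hlc : P.derivative.leadingCoeff = P.leadingCoeff * P.natDegree := by
    rw [Polynomial.leadingCoeff, hnd, Polynomial.coeff_derivative]
    have e1 : P.natDegree - 1 + 1 = P.natDegree := by omega
    have e2 : ((P.natDegree - 1 : ℕ) : ℝ) + 1 = P.natDegree := by
      rw [← Nat.cast_add_one, e1]
    rw [e1, e2]
    rfl
  rw [hX, div_one] at h1 h2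
  rw [hlc] at h2
  have hdr : (1 : ℝ) ≤ P.natDegree := by exact_mod_cast hd
  have e1 := h1.eventually (lt_mem_nhds (show P.leadingCoeff / 2 < P.leadingCoeff by linarith))
  have e2 := h1.eventually (gt_mem_nhds (show P.leadingCoeff < 2 * P.leadingCoeff by linarith))
  have e3 := h2.eventually (lt_mem_nhds (show P.leadingCoeff / 2 < P.leadingCoeff * P.natDegree by nlinarith))
  obtain ⟨v0, hv0⟩ := (((e1.and e2).and e3).and (eventually_ge_atTop (1 : ℝ))).exists_forall_of_atTop
  refine ⟨v0, (hv0 v0 le_rfl).2, fun v hv => ?_⟩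
  obtain ⟨⟨⟨g1, g2⟩, g3⟩, g4⟩ := hv0 v hv
  simp only [Polynomial.eval_pow, Polynomial.eval_X] at g1 g2 g3
  have hv1 : 0 < v := by linarith
  have hp : 0 < v ^ P.natDegree := by positivity
  have hp' : 0 < v ^ (P.natDegree - 1) := by positivity
  rw [lt_div_iff₀ hp] at g1
  rw [div_lt_iff₀ hp] at g2
  rw [lt_div_iff₀ hp'] at g3
  exact ⟨lt_trans (by positivity) g1, g2.le, g3.le⟩

/-- one block -/
lemma one_block {P : Polynomial ℝ} (hd : 0 < P.natDegree) (hl : 0 < P.leadingCoeff) {v0 : ℝ} (hv01 : 1 ≤ v0)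
    (hv0 : ∀ v, v0 ≤ v → 0 < P.eval v ∧ P.eval v ≤ 2 * P.leadingCoeff * v ^ P.natDegree ∧
      P.leadingCoeff / 2 * v ^ (P.natDegree - 1) ≤ P.derivative.eval v) {a : ℝ} (ha : 0 < a) {G : ℝ → ℝ}
    (hG : Measurable G) (hGb : ∀ v, 0 ≤ G v ∧ G v ≤ 2) {N : ℝ} (hN : 2 * v0 ≤ N) {A : ℝ}
    (hA : ∫ u in (0 : ℝ)..(a * P.eval N), G u ≤ A * (a * P.eval N)) :
    ∫ v in (N / 2)..N, G (a * P.eval v) ≤ (4 * 2 ^ P.natDegree) * A * N := by
  have hN0 : 0 < N := by linarith
  have hN2 : v0 ≤ N / 2 := by linarith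
  have hNv : v0 ≤ N := by linarith
  obtain ⟨hPN, hPN2, _⟩ := hv0 N hNv
  have haP : 0 < a * P.eval N := mul_pos ha hPN
  have hA0 : 0 ≤ A := by
    have h1 : 0 ≤ ∫ u in (0 : ℝ)..(a * P.eval N), G u := intervalIntegral.integral_nonneg haP.le fun u _ => (hGb u).1
    by_contra hc
    have := mul_neg_of_neg_of_pos (not_le.1 hc) haP
    linarith
  obtain ⟨m, hm⟩ : ∃ m : ℝ, m = a * (P.leadingCoeff / 2 * (N / 2) ^ (P.natDegree - 1)) := ⟨_, rfl⟩
  have hm0 : 0 < m := by rw [hm]; positivity
  have hder : ∀ v : ℝ, HasDerivAt (fun v => a * P.eval v) (a * P.derivative.eval v) v := fun v =>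
    (P.hasDerivAt v).const_mul a
  have hlow : ∀ v ∈ Set.Ioc (N / 2) N, m ≤ a * P.derivative.eval v := by
    intro v hv
    rw [hm]
    refine mul_le_mul_of_nonneg_left (le_trans ?_ (hv0 v (hN2.trans hv.1.le)).2.2) ha.le
    have : (N / 2) ^ (P.natDegree - 1) ≤ v ^ (P.natDegree - 1) := pow_le_pow_left₀ (by positivity) hv.1.le _
    exact mul_le_mul_of_nonneg_left this (by positivity)
  have hmono : StrictMonoOn (fun v => a * P.eval v) (Set.Ici v0) := by
    apply strictMonoOn_of_deriv_pos (convex_Ici v0)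
    · exact (continuous_const.mul P.continuous).continuousOn
    · intro v hv
      rw [interior_Ici] at hv
      rw [(hder v).deriv]
      have h1 := (hv0 v (le_of_lt hv)).2.2
      have hv1 : 0 < v := by
        have : v0 < v := hv
        linarith
      have h2 : 0 < P.leadingCoeff / 2 * v ^ (P.natDegree - 1) := by positivity
      exact mul_pos ha (lt_of_lt_of_le h2 h1)
  have hsub : Set.Ioc (N / 2) N ⊆ Set.Ici v0 := fun v hv => hN2.trans hv.1.le
  have hinj : Set.InjOn (fun v => a * P.eval v) (Set.Ioc (N / 2) N) := (hmono.injOn).mono hsub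
  have himg : (fun v => a * P.eval v) '' Set.Ioc (N / 2) N ⊆ Set.Ioc 0 (a * P.eval N) := by
    rintro _ ⟨v, hv, rfl⟩
    refine ⟨mul_pos ha (hv0 v (hsub hv)).1, ?_⟩
    exact hmono.monotoneOn (hsub hv) hNv hv.2
  have hcv := integral_image_eq_integral_abs_deriv_smul (f := fun v => a * P.eval v)
    (f' := fun v => a * P.derivative.eval v) measurableSet_Ioc (fun v _ => (hder v).hasDerivWithinAt) hinj G
  have hGc : Measurable fun v => G (a * P.eval v) := hG.comp (measurable_const.mul P.continuous.measurable)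
  have hint1 : IntegrableOn (fun v => m * G (a * P.eval v)) (Set.Ioc (N / 2) N) := by
    refine Measure.integrableOn_of_bounded (M := m * 2) (by simp) (measurable_const.mul hGc).aestronglyMeasurable
      (ae_of_all _ fun v => ?_)
    rw [Real.norm_of_nonneg (mul_nonneg hm0.le (hGb _).1)]
    exact mul_le_mul_of_nonneg_left (hGb _).2 hm0.le
  have hint2 : IntegrableOn (fun v => |a * P.derivative.eval v| • G (a * P.eval v)) (Set.Ioc (N / 2) N) := by
    rw [← integrableOn_image_iff_integrableOn_abs_deriv_smul measurableSet_Ioc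
      (fun v _ => (hder v).hasDerivWithinAt) hinj G]
    refine IntegrableOn.mono_set ?_ himg
    exact Measure.integrableOn_of_bounded (M := 2) (by simp) hG.aestronglyMeasurable (ae_of_all _ fun v => by
      rw [Real.norm_of_nonneg (hGb _).1]; exact (hGb _).2)
  have h1 : ∫ v in Set.Ioc (N / 2) N, m * G (a * P.eval v) ≤
      ∫ v in Set.Ioc (N / 2) N, |a * P.derivative.eval v| • G (a * P.eval v) := by
    refine setIntegral_mono_on hint1 hint2 measurableSet_Ioc fun v hv => ?_
    rw [smul_eq_mul]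
    exact mul_le_mul_of_nonneg_right ((hlow v hv).trans (le_abs_self _)) (hGb _).1
  rw [← hcv, integral_const_mul] at h1
  have h2 : ∫ u in (fun v => a * P.eval v) '' Set.Ioc (N / 2) N, G u ≤ ∫ u in Set.Ioc 0 (a * P.eval N), G u := by
    refine setIntegral_mono_set ?_ (ae_of_all _ fun u => (hGb u).1) (LE.le.eventuallyLE himg)
    exact Measure.integrableOn_of_bounded (M := 2) (by simp) hG.aestronglyMeasurable (ae_of_all _ fun v => by
      rw [Real.norm_of_nonneg (hGb _).1]; exact (hGb _).2)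
  rw [intervalIntegral.integral_of_le haP.le] at hA
  have h3 := h1.trans (h2.trans hA)
  rw [intervalIntegral.integral_of_le (by linarith)]
  have h4 : A * (a * P.eval N) ≤ m * ((4 * 2 ^ P.natDegree) * A * N) := by
    have h5 : P.eval N ≤ (P.leadingCoeff / 2 * (N / 2) ^ (P.natDegree - 1)) * ((4 * 2 ^ P.natDegree) * N) := by
      refine hPN2.trans ?_
      have e1 : P.natDegree = (P.natDegree - 1) + 1 := by omega
      have e2 : N ^ P.natDegree = (N / 2) ^ (P.natDegree - 1) * 2 ^ (P.natDegree - 1) * N := by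
        conv_lhs => rw [e1]
        rw [pow_succ, ← mul_pow]
        congr 2
        ring
      have e3 : (2 : ℝ) ^ P.natDegree = 2 ^ (P.natDegree - 1) * 2 := by
        conv_lhs => rw [e1]
        rw [pow_succ]
      rw [e2, e3]
      have h6 : 0 < P.leadingCoeff * ((N / 2) ^ (P.natDegree - 1) * 2 ^ (P.natDegree - 1) * N) := by positivity
      nlinarith
    calc A * (a * P.eval N) ≤ A * (a * ((P.leadingCoeff / 2 * (N / 2) ^ (P.natDegree - 1)) *
          ((4 * 2 ^ P.natDegree) * N))) := by gcongr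
      _ = _ := by rw [hm]; ring
  exact le_of_mul_le_mul_left (h3.trans h4) hm0

/-- limsup bound, positive times -/
theorem lim_block {P : Polynomial ℝ} (hd : 0 < P.natDegree) (hl : 0 < P.leadingCoeff) {a : ℝ} (ha : 0 < a) {G : ℝ → ℝ}
    (hG : Measurable G) (hGb : ∀ v, 0 ≤ G v ∧ G v ≤ 2) {A : ℝ} (hA0 : 0 ≤ A)
    (hA : ∀ᶠ V : ℝ in atTop, (1 / V) * ∫ u in (0 : ℝ)..V, G u ≤ A) {ε : ℝ} (hε : 0 < ε) :
    ∀ᶠ N : ℕ in atTop, (1 / (N : ℝ)) * ∫ v in (0 : ℝ)..N, G (a * P.eval v) ≤ ε + (8 * 2 ^ P.natDegree) * A := by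
  obtain ⟨v0, hv01, hv0⟩ := poly_asym hd hl
  have ht : Tendsto (fun N : ℝ => a * P.eval N) atTop atTop := by
    have h1 : Tendsto (fun x : ℝ => P.eval x) atTop atTop :=
      Polynomial.tendsto_atTop_of_leadingCoeff_nonneg P (Polynomial.natDegree_pos_iff_degree_pos.1 hd) hl.le
    exact h1.const_mul_atTop ha
  obtain ⟨v1, hv1⟩ := ((ht.eventually hA).and (eventually_ge_atTop v0)).exists_forall_of_atTop
  have hv10 : v0 ≤ v1 := (hv1 v1 le_rfl).2
  have hv1p : 0 < v1 := by linarith
  have hGc : Measurable fun v => G (a * P.eval v) := hG.comp (measurable_const.mul P.continuous.measurable)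
  have hGi : ∀ s t : ℝ, IntervalIntegrable (fun v => G (a * P.eval v)) volume s t := by
    intro s t
    refine (intervalIntegrable_const (c := (2 : ℝ))).mono_fun hGc.aestronglyMeasurable (ae_of_all _ fun v => ?_)
    change ‖G (a * P.eval v)‖ ≤ ‖(2 : ℝ)‖
    rw [Real.norm_of_nonneg (hGb _).1, Real.norm_of_nonneg (by norm_num)]
    exact (hGb _).2
  have htriv : ∀ N : ℝ, 0 ≤ N → ∫ v in (0 : ℝ)..N, G (a * P.eval v) ≤ 2 * N := by
    intro N hN
    have h1 : ‖∫ v in (0 : ℝ)..N, G (a * P.eval v)‖ ≤ 2 * |N - 0| :=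
      intervalIntegral.norm_integral_le_of_norm_le_const fun v _ => by
        rw [Real.norm_of_nonneg (hGb _).1]; exact (hGb _).2
    rw [sub_zero, abs_of_nonneg hN] at h1
    exact (Real.le_norm_self _).trans h1
  obtain ⟨K, hK⟩ : ∃ K : ℝ, K = (4 * 2 ^ P.natDegree) * A := ⟨_, rfl⟩
  have hK0 : 0 ≤ K := by rw [hK]; positivity
  have key : ∀ (k : ℕ) (N : ℝ), 0 ≤ N → N ≤ 2 ^ (k + 1) * v1 → ∫ v in (0 : ℝ)..N, G (a * P.eval v) ≤
      2 * K * N + 4 * v1 := by
    intro k
    induction k with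
    | zero =>
      intro N hN0 hN
      have h1 := htriv N hN0
      have h2 : 0 ≤ 2 * K * N := by positivity
      simp only [zero_add, pow_one] at hN
      linarith
    | succ k ih =>
      intro N hN0 hN
      rcases le_or_gt N (2 * v1) with h | h
      · have h1 := htriv N hN0
        have h2 : 0 ≤ 2 * K * N := by positivity
        linarith
      · have h1 := ih (N / 2) (by linarith) (by
          rw [pow_succ] at hN
          linarith)
        have hNv : v1 ≤ N := by linarith
        have hPN := (hv0 N (hv10.trans hNv)).1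
        have haP : 0 < a * P.eval N := mul_pos ha hPN
        have h2 := (hv1 N hNv).1
        rw [one_div, inv_mul_le_iff₀ haP] at h2
        have h3 := one_block hd hl hv01 hv0 ha hG hGb (N := N) (by linarith) (A := A) (by linarith)
        rw [← hK] at h3
        rw [← intervalIntegral.integral_add_adjacent_intervals (hGi 0 (N / 2)) (hGi (N / 2) N)]
        linarith
  have hlim : Tendsto (fun N : ℕ => (4 * v1) / (N : ℝ)) atTop (𝓝 0) := tendsto_const_div_atTop_nhds_zero_nat _
  filter_upwards [hlim.eventually (gt_mem_nhds hε), eventually_ge_atTop 1] with N hN hN1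
  have hN0 : (0 : ℝ) < N := by exact_mod_cast hN1
  obtain ⟨k, hk⟩ := pow_unbounded_of_one_lt ((N : ℝ) / v1) (one_lt_two : (1 : ℝ) < 2)
  have hk' : (N : ℝ) ≤ 2 ^ (k + 1) * v1 := by
    rw [div_lt_iff₀ hv1p] at hk
    rw [pow_succ]
    have : 0 < (2 : ℝ) ^ k * v1 := by positivity
    linarith
  have h1 := key k N hN0.le hk'
  rw [div_lt_iff₀ hN0] at hN
  rw [one_div, inv_mul_le_iff₀ hN0]
  rw [hK] at h1
  nlinarith

/-- limsup bound, both signs -/
theorem lim_sign {P : Polynomial ℝ} (hd : 0 < P.natDegree) {a s : ℝ} (has : 0 < s * (a * P.leadingCoeff)) {G : ℝ → ℝ}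
    (hG : Measurable G) (hGb : ∀ v, 0 ≤ G v ∧ G v ≤ 2) {A : ℝ} (hA0 : 0 ≤ A)
    (hA : ∀ᶠ V : ℝ in atTop, (1 / V) * ∫ u in (0 : ℝ)..V, G (s * u) ≤ A) {ε : ℝ} (hε : 0 < ε) :
    ∀ᶠ N : ℕ in atTop, (1 / (N : ℝ)) * ∫ v in (0 : ℝ)..N, G (a * P.eval v) ≤ ε + (8 * 2 ^ P.natDegree) * A := by
  have hs0 : s ≠ 0 := by rintro rfl; simp at has
  have hGs : Measurable fun u => G (s * u) := hG.comp (measurable_const.mul measurable_id)
  rcases lt_trichotomy 0 P.leadingCoeff with hl | hl | hl
  · have h1 : 0 < s⁻¹ * a := by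
      have h1 : 0 < s * a := by
        by_contra hc
        have : s * (a * P.leadingCoeff) ≤ 0 := by
          rw [← mul_assoc]
          exact mul_nonpos_of_nonpos_of_nonneg (not_lt.1 hc) hl.le
        linarith
      have h2 : s⁻¹ * a = (s * a) * (s⁻¹ ^ 2) := by field_simp
      rw [h2]
      positivity
    have h2 := lim_block hd hl h1 hGs (fun v => hGb _) hA0 hA hε
    have e : ∀ v : ℝ, s * (s⁻¹ * a * P.eval v) = a * P.eval v := fun v => by field_simp
    simpa only [e] using h2
  · exfalso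
    rw [← hl] at has
    simp at has
  · have h1 : 0 < -(s⁻¹ * a) := by
      have h1 : 0 < -(s * a) := by
        by_contra hc
        have : s * (a * P.leadingCoeff) ≤ 0 := by
          rw [← mul_assoc]
          exact mul_nonpos_of_nonneg_of_nonpos (by linarith) hl.le
        linarith
      have h2 : -(s⁻¹ * a) = (-(s * a)) * (s⁻¹ ^ 2) := by field_simp
      rw [h2]
      positivity
    have h2 := lim_block (P := -P) (by rwa [Polynomial.natDegree_neg]) (by rw [Polynomial.leadingCoeff_neg]; linarith)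
      h1 hGs (fun v => hGb _) hA0 hA hε
    rw [Polynomial.natDegree_neg] at h2
    have e : ∀ v : ℝ, s * (-(s⁻¹ * a) * (-P).eval v) = a * P.eval v := fun v => by
      rw [Polynomial.eval_neg]
      field_simp
    simpa only [e] using h2

end Pool.Agent.U587.PT
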