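import Pool.Agent.U587.PT.Ae
import Pool.Agent.U587.PT.Mv

set_option autoImplicit false

/-!
The difference of the averages tends to zero almost everywhere, for all bounded functions.
-/

namespace Pool.Agent.U587.PT

open MeasureTheory Filter Finset
open Pool.Agent.Y957.MC (IsFlow Mod Adm flowInv smo)
open Pool.Agent.Y312.MC (flowInv_le ii_orb)
open Pool.Agent.U587.ET (prod_diff_c norm_prod_le_one exists_small)
open Pool.Agent.R235.TD (flow_scale)
open scoped Topology ENNReal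

universe u

variable {X : Type u} [mX : MeasurableSpace X] {μ : Measure X} {n : ℕ} {τ : Fin n → ℝ → X → X}

/-- the difference, almost everywhere -/
theorem tr_cl [IsProbabilityMeasure μ] (hτ : ∀ j, IsFlow μ (τ j)) {P : Polynomial ℝ} (hd : 0 < P.natDegree) {a : ℝ}
    (ha : a ≠ 0) (hS : ∀ j, DX.Sg μ (τ j) P a) {f : Fin n → X → ℂ}
    (hf : ∀ j, Measurable (f j)) (hf1 : ∀ j x, ‖f j x‖ ≤ 1) {g : ℕ → Fin n → X → ℂ} (hg : ∀ i j, Measurable (g i j))
    (hg1 : ∀ i j x, ‖g i j x‖ ≤ 1) (hfg : ∀ j, Tendsto (fun i => ∫ x, ‖f j x - g i j x‖ ∂μ) atTop (𝓝 0))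
    (h : ∀ i, Cl μ τ (g i) P a) : Cl μ τ f P a := by
  have hlc : P.leadingCoeff ≠ 0 := by
    intro h0
    rw [Polynomial.leadingCoeff_eq_zero] at h0
    rw [h0] at hd
    simp at hd
  obtain ⟨s, hs⟩ : ∃ s : ℝ, 0 < s * (a * P.leadingCoeff) :=
    ⟨a * P.leadingCoeff, mul_self_pos.2 (mul_ne_zero ha hlc)⟩
  obtain ⟨E, hE⟩ : ∃ E : ℕ → Fin n → X → ℝ, ∀ i j, E i j = fun x => ‖f j x - g i j x‖ := ⟨_, fun i j => rfl⟩
  have hEm : ∀ i j, Measurable (E i j) := fun i j => by rw [hE]; exact ((hf j).sub (hg i j)).norm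
  have hEb : ∀ i j x, 0 ≤ E i j x ∧ E i j x ≤ 2 := fun i j x => by
    rw [hE]
    refine ⟨norm_nonneg _, (norm_sub_le _ _).trans ?_⟩
    linarith [hf1 j x, hg1 i j x]
  have hEb' : ∀ i j x, |E i j x| ≤ 2 := fun i j x => by rw [abs_of_nonneg (hEb i j x).1]; exact (hEb i j x).2
  choose H hHi hH0 hHI hHl using fun i j => DX.lim_int (hτ j) (hS j) (hEm i j) (hEb i j)
  have hσ : ∀ j, IsFlow μ (fun t => τ j (s * t)) := fun j => flow_scale (hτ j) s
  obtain ⟨Q, hQ⟩ : ∃ Q : ℕ → Fin n → X → ℝ, ∀ i j, Q i j = μ[E i j | flowInv (fun t => τ j (s * t))] :=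
    ⟨_, fun i j => rfl⟩
  have hQi : ∀ i j, Integrable (Q i j) μ := fun i j => by rw [hQ]; exact integrable_condExp
  have hQ0 : ∀ i j, 0 ≤ᵐ[μ] Q i j := fun i j => by
    rw [hQ]
    exact condExp_nonneg (ae_of_all _ fun x => (hEb i j x).1)
  have hQI : ∀ i j, ∫ x, Q i j x ∂μ = ∫ x, E i j x ∂μ := fun i j => by
    rw [hQ]
    exact integral_condExp (flowInv_le _)
  have hQl : ∀ i j, ∀ᵐ x ∂μ, Tendsto (fun V : ℝ => smo (fun t => τ j (s * t)) (E i j) V x) atTop (𝓝 (Q i j x)) := by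
    intro i j
    rw [hQ]
    exact Pool.Agent.Y48.MC.flwb X μ _ (E i j) (hσ j) (hEm i j) ⟨2, hEb' i j⟩
  obtain ⟨K, hK⟩ : ∃ K : ℝ, K = 8 * 2 ^ P.natDegree := ⟨_, rfl⟩
  have hK0 : 0 < K := by rw [hK]; positivity
  obtain ⟨Ψ, hΨ⟩ : ∃ Ψ : ℕ → X → ℝ, ∀ i, Ψ i = fun x => ∑ j, (H i j x + K * Q i j x) := ⟨_, fun i => rfl⟩
  have hΨ0 : ∀ i, 0 ≤ᵐ[μ] Ψ i := by
    intro i
    filter_upwards [ae_all_iff.2 (hH0 i), ae_all_iff.2 (hQ0 i)] with x hx hx2
    rw [hΨ]
    exact Finset.sum_nonneg fun j _ => add_nonneg (hx j) (mul_nonneg hK0.le (hx2 j))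
  have hHQ : ∀ i j, Integrable (fun x => H i j x + K * Q i j x) μ := fun i j => (hHi i j).add ((hQi i j).const_mul K)
  have hΨi : ∀ i, Integrable (Ψ i) μ := fun i => by
    rw [hΨ]
    exact integrable_finsetSum _ fun j _ => hHQ i j
  have hΨlim : Tendsto (fun i => ∫ x, Ψ i x ∂μ) atTop (𝓝 0) := by
    have h1 : ∀ i, ∫ x, Ψ i x ∂μ = ∑ j, ((1 + K) * ∫ x, ‖f j x - g i j x‖ ∂μ) := by
      intro i
      rw [hΨ]
      simp only
      rw [integral_finsetSum _ fun j _ => hHQ i j]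
      refine Finset.sum_congr rfl fun j _ => ?_
      rw [integral_add (hHi i j) ((hQi i j).const_mul K), integral_const_mul, hHI, hQI, hE]
      ring
    simp only [h1]
    have := tendsto_finsetSum (Finset.univ : Finset (Fin n)) fun j _ => (hfg j).const_mul (1 + K)
    simpa using this
  unfold Cl
  filter_upwards [ae_all_iff.2 h, ae_all_iff.2 fun i => ae_all_iff.2 (hHl i), exists_small hΨ0 hΨi hΨlim,
    ae_all_iff.2 fun i => ae_all_iff.2 (hQl i), ae_all_iff.2 fun i => ae_all_iff.2 (hQ0 i)]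
    with x hx1 hx2 hx3 hx4 hx5
  rw [Metric.tendsto_nhds]
  intro ε' hε'
  obtain ⟨k, hk⟩ := exists_nat_one_div_lt (half_pos hε')
  obtain ⟨i, hi⟩ := hx3 k
  obtain ⟨δ, hδ⟩ : ∃ δ : ℝ, δ = ε' / (8 * (1 + n + n * K)) := ⟨_, rfl⟩
  have hnn : (0 : ℝ) ≤ n := Nat.cast_nonneg _
  have hδ0 : 0 < δ := by rw [hδ]; positivity
  have hδR : (1 + n + n * K) * δ = ε' / 8 := by
    rw [hδ]
    field_simp
  obtain ⟨A, hA⟩ : ∃ A : ℝ, A = ∑ j, H i j x := ⟨_, rfl⟩
  obtain ⟨B, hB⟩ : ∃ B : ℝ, B = ∑ j, Q i j x := ⟨_, rfl⟩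
  have hAB : Ψ i x = A + K * B := by
    rw [hΨ, hA, hB, mul_sum]
    exact sum_add_distrib
  -- discrete errors
  have hds : Tendsto (fun N : ℕ => ∑ j, (1 / (N : ℝ)) * ∑ m ∈ Icc 1 N, E i j (τ j (a * P.eval (m : ℝ)) x)) atTop
      (𝓝 A) := by
    rw [hA]
    exact tendsto_finsetSum _ fun j _ => hx2 i j
  -- continuous errors
  have hce : ∀ᶠ N : ℕ in atTop, ∀ j, (1 / (N : ℝ)) * ∫ v in (0 : ℝ)..N, E i j (τ j (a * P.eval v) x) ≤
      δ + K * (Q i j x + δ) := by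
    rw [Filter.eventually_all]
    intro j
    have hmj : Measurable fun v : ℝ => E i j (τ j v x) :=
      (hEm i j).comp ((hτ j).meas.comp (measurable_id.prodMk measurable_const))
    have h1 : ∀ᶠ V : ℝ in atTop, (1 / V) * ∫ u in (0 : ℝ)..V, E i j (τ j (s * u) x) ≤ Q i j x + δ := by
      filter_upwards [(hx4 i j).eventually (gt_mem_nhds (show Q i j x < Q i j x + δ by linarith))] with V hV
      exact hV.le
    have hq : 0 ≤ Q i j x := hx5 i j
    rw [hK]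
    exact lim_sign hd hs hmj (fun v => hEb i j _) (by linarith) h1 hδ0
  filter_upwards [(Metric.tendsto_nhds.1 (hx1 i)) δ hδ0, hds.eventually (gt_mem_nhds (show A < A + δ by linarith)),
    hce] with N hN1 hN2 hN3
  rw [dist_zero_right] at hN1 ⊢
  have e0 := dl_sub hτ hf (hg i) hf1 (hg1 i) P a N x
  have e1 : (1 / (N : ℝ)) * ∑ m ∈ Icc 1 N, DD τ f (g i) x (a * P.eval (m : ℝ)) =
      ∑ j, (1 / (N : ℝ)) * ∑ m ∈ Icc 1 N, E i j (τ j (a * P.eval (m : ℝ)) x) := by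
    unfold DD
    rw [sum_comm, mul_sum]
    refine sum_congr rfl fun j _ => ?_
    rw [hE]
  have e2 : (1 / (N : ℝ)) * ∫ v in (0 : ℝ)..N, DD τ f (g i) x (a * P.eval v) =
      ∑ j, (1 / (N : ℝ)) * ∫ v in (0 : ℝ)..N, E i j (τ j (a * P.eval v) x) := by
    unfold DD
    rw [intervalIntegral.integral_finsetSum, mul_sum]
    · refine sum_congr rfl fun j _ => ?_
      rw [hE]
    · intro j _
      have hmj : Measurable fun v : ℝ => E i j (τ j (a * P.eval v) x) :=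
        (hEm i j).comp ((hτ j).meas.comp ((avP_meas a).prodMk measurable_const))
      have h8 : IntervalIntegrable (fun v : ℝ => E i j (τ j (a * P.eval v) x)) volume 0 N := by
        refine (intervalIntegrable_const (c := (2 : ℝ))).mono_fun hmj.aestronglyMeasurable (ae_of_all _ fun v => ?_)
        change ‖E i j (τ j (a * P.eval v) x)‖ ≤ ‖(2 : ℝ)‖
        rw [Real.norm_of_nonneg (hEb _ _ _).1, Real.norm_of_nonneg (by norm_num)]
        exact (hEb _ _ _).2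
      rw [hE] at h8
      exact h8
  rw [mul_add, e1, e2] at e0
  have e3 : ∑ j, (1 / (N : ℝ)) * ∫ v in (0 : ℝ)..N, E i j (τ j (a * P.eval v) x) ≤ n * δ + K * (B + n * δ) := by
    refine (sum_le_sum fun j _ => hN3 j).trans (le_of_eq ?_)
    rw [sum_add_distrib, ← mul_sum, sum_add_distrib, ← hB, sum_const, card_univ, Fintype.card_fin, nsmul_eq_mul]
  have hN1' : ‖dl τ (g i) P a N x‖ < δ := hN1
  change ‖dl τ f P a N x‖ < ε'
  have h9 : Ψ i x < ε' / 2 := hi.trans hk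
  have h10 : δ + (A + δ) + (n * δ + K * (B + n * δ)) = Ψ i x + (1 + n + n * K) * δ + δ := by rw [hAB]; ring
  have h11 : δ ≤ ε' / 8 := by
    rw [← hδR]
    nlinarith [mul_nonneg hnn hK0.le, mul_nonneg hnn hδ0.le, mul_nonneg (mul_nonneg hnn hK0.le) hδ0.le]
  linarith

omit mX in
/-- time zero -/
lemma cl_zero [MeasurableSpace X] {μ : Measure X} (τ : Fin n → ℝ → X → X) (f : Fin n → X → ℂ) (P : Polynomial ℝ) :
    Cl μ τ f P 0 := by
  refine ae_of_all _ fun x => ?_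
  refine tendsto_const_nhds.congr fun N => ?_
  simp only [zero_mul, sum_const, Nat.card_Icc, intervalIntegral.integral_const, sub_zero]
  rw [nsmul_eq_mul]
  simp

end Pool.Agent.U587.PT
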