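import Pool.Agent.U587.PT.Dim
import Pool.Agent.U587.DX.Core

set_option autoImplicit false

/-!
The exceptional set for families which are Lipschitz along the flows has small dimension.
-/

namespace Pool.Agent.U587.PT

open MeasureTheory Filter Finset
open Pool.Agent.Y957.MC (IsFlow Mod Adm)
open Pool.Agent.Y448.MC (GG GG_meas GG_norm sum_GG)
open Pool.Agent.R235.TD (flow_scale)
open scoped Topology ENNReal

universe u

variable {X : Type u} [mX : MeasurableSpace X] {μ : Measure X} {n : ℕ} {τ : Fin n → ℝ → X → X} {f : Fin n → X → ℂ}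
  {L : Fin n → ℝ}

lemma half_floor (N : ℕ) : ⌊(1 / 2 : ℝ) * N⌋₊ = N / 2 := by
  have : (1 / 2 : ℝ) * N = (N : ℝ) / (2 : ℕ) := by push_cast; ring
  rw [this, Nat.floor_div_natCast, Nat.floor_natCast]

/-- mean square -/
noncomputable def Phi (μ : Measure X) (τ : Fin n → ℝ → X → X) (f : Fin n → X → ℂ) (P : Polynomial ℝ) (N : ℕ)
    (a : ℝ) : ℝ := ∫ x, ‖hb τ f P N a x‖ ^ 2 ∂μ

lemma meas_sl {E : Type*} [MeasurableSpace E] {H : ℝ → X → E} (h : Measurable fun q : ℝ × X => H q.1 q.2) (a : ℝ) :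
    Measurable (H a) := h.comp (measurable_const.prodMk measurable_id)

lemma hb_meas_x (hτ : ∀ j, IsFlow μ (τ j)) (hf : ∀ j, Measurable (f j)) (P : Polynomial ℝ) (N : ℕ) (a : ℝ) :
    Measurable (hb τ f P N a) := by
  have h1 := hb_meas hτ hf P N
  exact meas_sl h1 a

lemma hb_int [IsProbabilityMeasure μ] (hτ : ∀ j, IsFlow μ (τ j)) (hf : Nf τ f L) (P : Polynomial ℝ) (N : ℕ) (a : ℝ) :
    Integrable (fun x => ‖hb τ f P N a x‖ ^ 2) μ := by
  refine Integrable.of_bound ((hb_meas_x hτ hf.meas P N a).norm.pow_const 2).aestronglyMeasurable 1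
    (ae_of_all _ fun x => ?_)
  rw [Real.norm_eq_abs, abs_of_nonneg (by positivity)]
  exact pow_le_one₀ (norm_nonneg _) (hb_bd hf _ _ _ _)

lemma Phi_lip [IsProbabilityMeasure μ] (hτ : ∀ j, IsFlow μ (τ j)) (hf : Nf τ f L) {P : Polynomial ℝ} {Cp : ℝ}
    (hCp : ∀ (N : ℕ) (v : ℝ), 1 ≤ N → 0 ≤ v → v ≤ N → |P.eval v| ≤ Cp * (N : ℝ) ^ P.natDegree)
    {N : ℕ} (hN : 1 ≤ N) (a b : ℝ) :
    |Phi μ τ f P N a - Phi μ τ f P N b| ≤ (2 * ((∑ j, |L j|) * Cp)) * (N : ℝ) ^ P.natDegree * |a - b| := by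
  unfold Phi
  rw [← integral_sub (hb_int hτ hf P N a) (hb_int hτ hf P N b)]
  have h1 : ∀ x, |‖hb τ f P N a x‖ ^ 2 - ‖hb τ f P N b x‖ ^ 2| ≤
      (2 * ((∑ j, |L j|) * Cp)) * (N : ℝ) ^ P.natDegree * |a - b| := by
    intro x
    rw [sq_sub_sq, abs_mul]
    have h2 := (abs_norm_sub_norm_le (hb τ f P N a x) (hb τ f P N b x)).trans (hb_lip hτ hf hCp hN a b x)
    have h3 : |‖hb τ f P N a x‖ + ‖hb τ f P N b x‖| ≤ 2 := by
      rw [abs_of_nonneg (by positivity)]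
      linarith [hb_bd hf P N a x, hb_bd hf P N b x]
    calc _ ≤ 2 * ((∑ j, |L j|) * Cp * (N : ℝ) ^ P.natDegree * |a - b|) :=
          mul_le_mul h3 h2 (abs_nonneg _) (by norm_num)
      _ = _ := by ring
  have h2 : ‖∫ x, (‖hb τ f P N a x‖ ^ 2 - ‖hb τ f P N b x‖ ^ 2) ∂μ‖ ≤
      ((2 * ((∑ j, |L j|) * Cp)) * (N : ℝ) ^ P.natDegree * |a - b|) * μ.real Set.univ :=
    norm_integral_le_of_norm_le_const (ae_of_all _ fun x => by rw [Real.norm_eq_abs]; exact h1 x)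
  rw [Real.norm_eq_abs] at h2
  simpa using h2

lemma hb_eq (hτ : ∀ j, IsFlow μ (τ j)) (hf : Nf τ f L) (P : Polynomial ℝ) (N : ℕ) (a : ℝ) (x : X) :
    ‖hb τ f P N a x‖ ^ 2 = (1 / 4) * ‖(1 / (N : ℂ)) * (∑ m ∈ Ioc ⌊(1 / 2 : ℝ) * N⌋₊ N, pf τ f x (a * P.eval (m : ℝ)) -
        ∫ v in (⌊(1 / 2 : ℝ) * N⌋₊ : ℝ)..N, pf τ f x (a * P.eval v))‖ ^ 2 := by
  rw [half_floor]
  unfold hb
  rw [sum_GG (p := fun v => P.eval v) P.continuous.measurable (pf_meas_v hτ hf.meas x) (fun v => pf_bd hf x v)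
    (Nat.div_le_self N 2) a]
  rw [mul_left_comm, norm_mul (1 / 2 : ℂ), mul_pow]
  norm_num

/-- convergence at one time -/
lemma conv_one [IsProbabilityMeasure μ] (hτ : ∀ j, IsFlow μ (τ j)) (hf : Nf τ f L) (P : Polynomial ℝ) {m : ℕ}
    (hm : 0 < m) {a : ℝ} (h : ∀ᶠ l : ℕ in atTop, Phi μ τ f P ((l + 1) ^ m) a ≤ 1 / ((l : ℝ) + 1) ^ 2) :
    Cl μ τ f P a := by
  obtain ⟨l0, hl0⟩ := eventually_atTop.1 h
  have hs : Summable fun l : ℕ => 1 / (((l + l0 : ℕ) : ℝ) + 1) ^ 2 := by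
    have h2 := (summable_nat_add_iff (l0 + 1)).2 ((Real.summable_one_div_nat_pow (p := 2)).2 (by norm_num))
    refine h2.congr fun l => ?_
    push_cast
    ring
  have h3 := Pool.Agent.Y86.MC.ae_summable_of μ (fun l x => ‖hb τ f P ((l + l0 + 1) ^ m) a x‖ ^ 2)
    (fun l => (hb_meas_x hτ hf.meas P _ a).norm.pow_const 2) (fun l x => sq_nonneg _) _ hs
    (fun l => hb_int hτ hf P _ a) (fun l => hl0 (l + l0) (by omega))
  unfold Cl
  filter_upwards [h3] with x hx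
  have h4 := hx.tendsto_atTop_zero
  have h5 := h4.sqrt
  rw [Real.sqrt_zero] at h5
  have h6 : Tendsto (fun l : ℕ => hb τ f P ((l + l0 + 1) ^ m) a x) atTop (𝓝 0) := by
    rw [tendsto_zero_iff_norm_tendsto_zero]
    refine h5.congr fun l => ?_
    exact Real.sqrt_sq (norm_nonneg _)
  have h7 : Tendsto (fun l : ℕ => hb τ f P ((l + 1) ^ m) a x) atTop (𝓝 0) := (tendsto_add_atTop_iff_nat l0).1 h6
  have h8 := half_det (g := fun m => GG (fun v => P.eval v) (pf τ f x) m a)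
    (fun m => GG_norm (fun v => pf_bd hf x v) m a) hm h7
  have h9 := h8.const_mul 2
  rw [mul_zero] at h9
  refine h9.congr fun N => ?_
  have e1 : ∑ m ∈ Icc 1 N, GG (fun v => P.eval v) (pf τ f x) m a =
      ∑ m ∈ Ioc 0 N, GG (fun v => P.eval v) (pf τ f x) m a := rfl
  have e2 : ∑ m ∈ Icc 1 N, pf τ f x (a * P.eval (m : ℝ)) = ∑ m ∈ Ioc 0 N, pf τ f x (a * P.eval (m : ℝ)) := rfl
  rw [e1, e2, sum_GG (p := fun v => P.eval v) P.continuous.measurable (pf_meas_v hτ hf.meas x)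
    (fun v => pf_bd hf x v) (Nat.zero_le N) a]
  push_cast
  ring

/-- the bound on the dimension -/
noncomputable def dk (k d : ℕ) : ℝ≥0∞ := ENNReal.ofReal (1 - ((1 : ℕ) : ℝ) / ((k * d : ℕ) : ℝ))

/-- the constant for degree at most `D` -/
def kD (D : ℕ) : ℕ := 2 ^ (4 * D + 6)

lemma kD_two (D : ℕ) : 2 ≤ kD D := by
  unfold kD
  calc 2 = 2 ^ 1 := rfl
    _ ≤ 2 ^ (4 * D + 6) := Nat.pow_le_pow_right (by norm_num) (by omega)

/-- all families, times between one and two -/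
theorem bad_one {P : Polynomial ℝ} {D : ℕ} (hd : 0 < P.natDegree) (hdD : P.natDegree ≤ D) (hlc : 0 < P.leadingCoeff)
    (X : Type u) [MeasurableSpace X] (μ : Measure X) [IsProbabilityMeasure μ] (n : ℕ)
      (τ : Fin n → ℝ → X → X) (f : Fin n → X → ℂ) (L : Fin n → ℝ) (hτ : ∀ j, IsFlow μ (τ j)) (hf : Nf τ f L) :
      dimH {a : ℝ | a ∈ Set.Icc (1 : ℝ) 2 ∧ ¬ Cl μ τ f P a} ≤ dk (kD D) P.natDegree := by
  obtain ⟨Λ, hΛ, hblk⟩ := blkD hd hdD hlc
  obtain ⟨δ, hδd⟩ : ∃ δ : ℝ, δ = dD D := ⟨_, rfl⟩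
  rw [← hδd] at hblk
  have hδ : 0 < δ := by rw [hδd]; unfold dD; positivity
  obtain ⟨k, hk⟩ : ∃ k : ℕ, k = kD D := ⟨_, rfl⟩
  rw [← hk]
  have hk2 : 2 ≤ k := hk ▸ kD_two D
  have hkq : ∀ q : ℕ, 1 ≤ q → k * q ≠ 0 := fun q hq => Nat.mul_ne_zero (by omega) (by omega)
  have hkδ : 1 ≤ k * δ := by
    rw [hk, hδd]
    unfold kD dD
    push_cast
    rw [mul_one_div_cancel (by positivity)]
  obtain ⟨Cp, hCp0, hCp⟩ := poly_real P
  obtain ⟨K, hK⟩ : ∃ K : ℝ, K = ∑ j, |L j| := ⟨_, rfl⟩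
  have hK0 : 0 ≤ K := by rw [hK]; exact sum_nonneg fun j _ => abs_nonneg _
  obtain ⟨Cm, hCm⟩ : ∃ Cm : ℝ, Cm = max 1 (K * (2 * Real.exp Λ) * Λ) := ⟨_, rfl⟩
  obtain ⟨C, hC, hev⟩ := hblk 1 Cm one_pos (hCm ▸ le_max_left _ _)
  have hKC : 0 ≤ 2 * (K * Cp) := mul_nonneg (by norm_num) (mul_nonneg hK0 hCp0)
  refine DX.dimH_of_power (Nat.mul_pos (by omega) hd) (by nlinarith) fun q hq => ?_
  refine ⟨fun l a => Phi μ τ f P ((l + 1) ^ (k * q)) a, 2 * (K * Cp), C, hKC, hC,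
    fun l a => integral_nonneg fun x => sq_nonneg _, fun l a _ b _ => ?_, ?_, fun a ha => ⟨ha.1, ?_⟩⟩
  · have h1 := Phi_lip hτ hf hCp (N := (l + 1) ^ (k * q)) (Nat.one_le_iff_ne_zero.2 (by positivity)) a b
    rw [← hK] at h1
    refine h1.trans (le_of_eq ?_)
    push_cast
    rw [← pow_mul, show k * q * P.natDegree = k * P.natDegree * q by ring]
  · have ht : Tendsto (fun l : ℕ => (l + 1) ^ (k * q)) atTop atTop :=
      (tendsto_pow_atTop (hkq q hq)).comp (tendsto_add_atTop_nat 1)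
    filter_upwards [ht.eventually hev] with l hl
    obtain ⟨N, hN⟩ : ∃ N : ℕ, N = (l + 1) ^ (k * q) := ⟨_, rfl⟩
    rw [← hN] at hl ⊢
    have h1 : ∀ x, ∫ a in (1 : ℝ)..2, ‖hb τ f P N a x‖ ^ 2 ≤ (1 / 4) * (C * (N : ℝ) ^ (-δ)) := by
      intro x
      have h2 := hl (pf τ f x) (pf_meas_v hτ hf.meas x) (fun v => pf_bd hf x v) (fun M hM =>
        mod_mono (hCm ▸ le_max_right _ _) hM (mod_lip hK0 (fun v w => hK ▸ pf_lip hf x v w) hΛ hM))
      rw [mul_one] at h2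
      simp_rw [hb_eq hτ hf P N _ x]
      rw [intervalIntegral.integral_const_mul]
      exact mul_le_mul_of_nonneg_left h2 (by norm_num)
    have hswap : ∫ a in (1 : ℝ)..2, Phi μ τ f P N a = ∫ x, (∫ a in (1 : ℝ)..2, ‖hb τ f P N a x‖ ^ 2) ∂μ := by
      unfold Phi
      simp_rw [intervalIntegral.integral_of_le (one_le_two : (1 : ℝ) ≤ 2)]
      refine integral_integral_swap ?_
      refine Integrable.of_bound ((hb_meas hτ hf.meas P N).norm.pow_const 2).aestronglyMeasurable 1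
        (ae_of_all _ fun z => ?_)
      rw [Real.norm_eq_abs, abs_of_nonneg (sq_nonneg _)]
      exact pow_le_one₀ (norm_nonneg _) (hb_bd hf _ _ _ _)
    have h3 : ∫ x, (∫ a in (1 : ℝ)..2, ‖hb τ f P N a x‖ ^ 2) ∂μ ≤ (1 / 4) * (C * (N : ℝ) ^ (-δ)) := by
      have h4 : ‖∫ x, (∫ a in (1 : ℝ)..2, ‖hb τ f P N a x‖ ^ 2) ∂μ‖ ≤
          ((1 / 4) * (C * (N : ℝ) ^ (-δ))) * μ.real Set.univ := by
        refine norm_integral_le_of_norm_le_const (ae_of_all _ fun x => ?_)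
        rw [Real.norm_eq_abs, abs_of_nonneg (intervalIntegral.integral_nonneg one_le_two fun a _ => sq_nonneg _)]
        exact h1 x
      rw [probReal_univ, mul_one] at h4
      exact (Real.le_norm_self _).trans h4
    rw [hswap]
    refine h3.trans ?_
    have hl1 : (1 : ℝ) ≤ (l : ℝ) + 1 := by
      have : (0 : ℝ) ≤ (l : ℝ) := Nat.cast_nonneg _
      linarith
    have h5 : (N : ℝ) ^ (-δ) ≤ (((l : ℝ) + 1) ^ (1 * q))⁻¹ := by
      rw [hN]
      push_cast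
      rw [← Real.rpow_natCast ((l : ℝ) + 1) (k * q), ← Real.rpow_mul (by linarith),
        ← Real.rpow_natCast ((l : ℝ) + 1) (1 * q), ← Real.rpow_neg (by linarith)]
      refine Real.rpow_le_rpow_of_exponent_le hl1 ?_
      push_cast
      have hq0 : (0 : ℝ) ≤ q := Nat.cast_nonneg _
      nlinarith
    have h6 : (0 : ℝ) ≤ (N : ℝ) ^ (-δ) := by positivity
    rw [div_eq_mul_inv]
    calc (1 / 4) * (C * (N : ℝ) ^ (-δ)) ≤ C * (N : ℝ) ^ (-δ) := by nlinarith [mul_nonneg hC h6]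
      _ ≤ _ := mul_le_mul_of_nonneg_left h5 hC
  · by_contra hne
    rw [not_frequently] at hne
    refine ha.2 (conv_one hτ hf P (m := k * q) (Nat.mul_pos (by omega) (by omega)) ?_)
    filter_upwards [hne] with l hl
    exact not_lt.1 hl

lemma nf_scale (hf : Nf τ f L) (A : ℝ) : Nf (fun j t => τ j (A * t)) f (fun j => |L j| * |A|) where
  meas := hf.meas
  bd := hf.bd
  lip j s t x := by
    refine (hf.lip j _ _ x).trans ?_
    rw [← mul_sub, abs_mul, ← mul_assoc]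
    exact mul_le_mul_of_nonneg_right (mul_le_mul_of_nonneg_right (le_abs_self _) (abs_nonneg _)) (abs_nonneg _)

/-- all times -/
theorem bad_pos {P : Polynomial ℝ} {D : ℕ} (hd : 0 < P.natDegree) (hdD : P.natDegree ≤ D) (hlc : 0 < P.leadingCoeff)
    (X : Type u) [MeasurableSpace X] (μ : Measure X) [IsProbabilityMeasure μ] (n : ℕ)
      (τ : Fin n → ℝ → X → X) (f : Fin n → X → ℂ) (L : Fin n → ℝ) (hτ : ∀ j, IsFlow μ (τ j)) (hf : Nf τ f L) :
      dimH {a : ℝ | ¬ Cl μ τ f P a} ≤ dk (kD D) P.natDegree := by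
  have key : ∀ A : ℝ, A ≠ 0 → dimH {a : ℝ | A⁻¹ * a ∈ Set.Icc (1 : ℝ) 2 ∧ ¬ Cl μ τ f P a} ≤
      dk (kD D) P.natDegree := by
    intro A hA
    have h1 := bad_one hd hdD hlc X μ n (fun j t => τ j (A * t)) f _ (fun j => flow_scale (hτ j) A) (nf_scale hf A)
    have hlip : LipschitzWith (Real.toNNReal |A|) fun b : ℝ => A * b := by
      apply LipschitzWith.of_dist_le_mul
      intro b c
      rw [Real.dist_eq, Real.dist_eq, ← mul_sub, abs_mul, Real.coe_toNNReal _ (abs_nonneg _)]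
    refine le_trans (dimH_mono ?_) ((hlip.dimH_image_le _).trans h1)
    rintro a ⟨ha1, ha2⟩
    refine ⟨A⁻¹ * a, ⟨ha1, fun h2 => ha2 ?_⟩, by simp only; rw [mul_inv_cancel_left₀ hA]⟩
    unfold Cl at h2 ⊢
    filter_upwards [h2] with x hx
    have e : ∀ v : ℝ, pf (fun j t => τ j (A * t)) f x (A⁻¹ * a * P.eval v) = pf τ f x (a * P.eval v) := fun v => by
      unfold pf
      have e1 : A * (A⁻¹ * a * P.eval v) = a * P.eval v := by field_simp
      simp only [e1]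
    simpa only [e] using hx
  have hsub : {a : ℝ | ¬ Cl μ τ f P a} ⊆ {0} ∪ ⋃ i : ℤ,
      ({a : ℝ | ((2 : ℝ) ^ i)⁻¹ * a ∈ Set.Icc (1 : ℝ) 2 ∧ ¬ Cl μ τ f P a} ∪
       {a : ℝ | (-(2 : ℝ) ^ i)⁻¹ * a ∈ Set.Icc (1 : ℝ) 2 ∧ ¬ Cl μ τ f P a}) := by
    intro a ha
    rcases eq_or_ne a 0 with ha0 | ha0
    · left; exact ha0
    right
    rw [Set.mem_iUnion]
    obtain ⟨i, hi⟩ := exists_mem_Ico_zpow (abs_pos.2 ha0) (one_lt_two : (1 : ℝ) < 2)
    have hp : (0 : ℝ) < 2 ^ i := by positivity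
    have hi2 : |a| < 2 * 2 ^ i := by
      have := hi.2
      rw [zpow_add_one₀ (by norm_num)] at this
      linarith
    have hmem : ((2 : ℝ) ^ i)⁻¹ * |a| ∈ Set.Icc (1 : ℝ) 2 := by
      constructor
      · rw [inv_mul_eq_div, le_div_iff₀ hp, one_mul]
        exact hi.1
      · rw [inv_mul_eq_div, div_le_iff₀ hp]
        exact hi2.le
    refine ⟨i, ?_⟩
    rcases lt_or_gt_of_ne ha0 with hneg | hpos
    · right
      refine ⟨?_, ha⟩
      rw [abs_of_neg hneg] at hmem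
      rw [inv_neg, neg_mul_comm]
      exact hmem
    · left
      refine ⟨?_, ha⟩
      rw [abs_of_pos hpos] at hmem
      exact hmem
  refine (dimH_mono hsub).trans ?_
  rw [dimH_union, dimH_singleton, dimH_iUnion]
  refine max_le (zero_le) (iSup_le fun i => ?_)
  rw [dimH_union]
  have h2 : (2 : ℝ) ^ i ≠ 0 := by positivity
  exact max_le (key _ h2) (key _ (neg_ne_zero.2 h2))

/-- all times, all polynomials of positive degree -/
theorem bad_all {P : Polynomial ℝ} {D : ℕ} (hd : 0 < P.natDegree) (hdD : P.natDegree ≤ D)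
    (X : Type u) [MeasurableSpace X] (μ : Measure X) [IsProbabilityMeasure μ] (n : ℕ)
      (τ : Fin n → ℝ → X → X) (f : Fin n → X → ℂ) (L : Fin n → ℝ) (hτ : ∀ j, IsFlow μ (τ j)) (hf : Nf τ f L) :
      dimH {a : ℝ | ¬ Cl μ τ f P a} ≤ dk (kD D) P.natDegree := by
  rcases lt_trichotomy 0 P.leadingCoeff with hl | hl | hl
  · exact bad_pos hd hdD hl X μ n τ f L hτ hf
  · exfalso
    have := Polynomial.leadingCoeff_eq_zero.1 hl.symm
    rw [this] at hd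
    simp at hd
  · have h1 := bad_pos (P := -P) (D := D) (by rwa [Polynomial.natDegree_neg]) (by rwa [Polynomial.natDegree_neg])
      (by rw [Polynomial.leadingCoeff_neg]; linarith) X μ n (fun j t => τ j (-1 * t)) f _
      (fun j => flow_scale (hτ j) (-1)) (nf_scale hf (-1))
    rw [Polynomial.natDegree_neg] at h1
    refine (dimH_mono ?_).trans h1
    intro a ha h2
    apply ha
    unfold Cl at h2 ⊢
    filter_upwards [h2] with x hx
    have e : ∀ v : ℝ, pf (fun j t => τ j (-1 * t)) f x (a * (-P).eval v) = pf τ f x (a * P.eval v) := fun v => by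
      unfold pf
      have e1 : -1 * (a * (-P).eval v) = a * P.eval v := by rw [Polynomial.eval_neg]; ring
      simp only [e1]
    simpa only [e] using hx

lemma dk_mono {k d d' : ℕ} (hk : 0 < k) (hd : 0 < d) (h : d ≤ d') : dk k d ≤ dk k d' := by
  unfold dk
  apply ENNReal.ofReal_le_ofReal
  have h0 : (0 : ℝ) < ((k * d : ℕ) : ℝ) := by exact_mod_cast Nat.mul_pos hk hd
  have h1 : ((k * d : ℕ) : ℝ) ≤ ((k * d' : ℕ) : ℝ) := by exact_mod_cast Nat.mul_le_mul_left k h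
  have : ((1 : ℕ) : ℝ) / ((k * d' : ℕ) : ℝ) ≤ ((1 : ℕ) : ℝ) / ((k * d : ℕ) : ℝ) := by gcongr
  linarith

lemma dk_lt_one {k d : ℕ} (hk : 2 ≤ k) (hd : 0 < d) : dk k d < 1 := by
  unfold dk
  rw [ENNReal.ofReal_lt_one]
  have : (0 : ℝ) < ((k * d : ℕ) : ℝ) := by exact_mod_cast Nat.mul_pos (by omega) hd
  have h2 : (0 : ℝ) < ((1 : ℕ) : ℝ) / ((k * d : ℕ) : ℝ) := by positivity
  linarith

end Pool.Agent.U587.PT
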