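import Pool.Agent.Y614.MC.Expg
import Pool.Agent.Y571.MC.Poly

set_option autoImplicit false

/-!
Exponential sums with explicit exponents (adaptation of `Pool.Agent.Y614.MC.expg` and `Pool.Agent.Y571.MC.poly`).
-/

namespace Pool.Agent.U587.PT

/-- the exponent -/
noncomputable def de (Q : ℕ) : ℝ := 1 / (2 * 2 ^ (2 * Q + 2))

section

open Finset Filter
open Pool.Agent.H469R2.NK (e norm_e Av Av_le Cq Cq_pos iterate harm_le norm_sum_neg)
open Pool.Agent.TH915.PW (Hy SD SD_sq SD_le)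
open Pool.Agent.Y957.MC
open Pool.Agent.Y614.MC

/-- exponential sums, explicit exponent -/
theorem expgU {φ : ℕ → ℝ → ℝ} {d : ℝ} (hφ : Phase φ d) {ε : ℝ} (Q : ℕ) (hε : 0 < ε) (hε1 : ε < 1) :
    ∃ C : ℝ, 0 < C ∧ ∀ᶠ N : ℕ in atTop, ∀ κ : ℝ, κ ≠ 0 →
    |κ| ≤ (N : ℝ) ^ Q → ‖∑ n ∈ Ioc ⌊ε * N⌋₊ N, Complex.exp (((κ * φ 0 n : ℝ) : ℂ) * Complex.I)‖ ≤
      C * (N / |κ| + (N : ℝ) ^ (1 - de Q)) := by
  have hd : 0 < d := hφ.1
  set k : ℕ := 2 * Q + 2 with hk
  have hk1 : 1 ≤ k := by omega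
  obtain ⟨X0, hX0, hy0⟩ := phase_hy hφ 0 (by decide)
  obtain ⟨Xk, hXk, hyk⟩ := phase_hy hφ k ⟨Q + 1, by omega⟩
  have hfac : (0 : ℝ) < k.factorial := by exact_mod_cast Nat.factorial_pos k
  have hfac1 : (1 : ℝ) ≤ k.factorial := by exact_mod_cast Nat.factorial_pos k
  have hπ := Real.pi_pos
  set a0 : ℝ := ((Nat.factorial 0 : ℕ) : ℝ) * d / (2 * 2 ^ (0 + 1)) with ha0
  set b0 : ℝ := 2 * ((Nat.factorial 0 : ℕ) : ℝ) * d / ε ^ (0 + 1) with hb0
  set ak : ℝ := k.factorial * d / (2 * 2 ^ (k + 1)) with hak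
  set bk : ℝ := 2 * k.factorial * d / ε ^ (k + 1) with hbk
  have ha0' : 0 < a0 := by rw [ha0]; positivity
  have hb0' : 0 < b0 := by rw [hb0]; positivity
  have hak' : 0 < ak := by rw [hak]; positivity
  have hbk' : 0 < bk := by rw [hbk]; positivity
  have hb0k : b0 ≤ bk := by
    rw [hb0, hbk]
    simp only [Nat.factorial_zero, Nat.cast_one, zero_add, pow_one, mul_one]
    rw [div_le_div_iff₀ hε (by positivity)]
    have h1 : ε ^ (k + 1) ≤ ε := by
      calc ε ^ (k + 1) = ε ^ k * ε := pow_succ _ _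
        _ ≤ 1 * ε := by
          gcongr
          exact pow_le_one₀ hε.le hε1.le
        _ = ε := one_mul _
    calc 2 * d * ε ^ (k + 1) ≤ 2 * d * ε := by gcongr
      _ = 2 * 1 * d * ε := by ring
      _ ≤ 2 * k.factorial * d * ε := by gcongr
  set c1 : ℝ := min 1 (Real.pi / bk) with hc1
  have hc1' : 0 < c1 := by rw [hc1]; positivity
  have hc11 : c1 ≤ 1 := min_le_left _ _
  have hc12 : c1 ≤ Real.pi / bk := min_le_right _ _
  set K : ℝ := Cq k * (2 / Real.sqrt c1 + 4 * 2 ^ k * (bk / ak) * (1 + 2 * k) ^ k) with hK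
  have hCq := Cq_pos k
  have hK0 : 0 < K := by rw [hK]; positivity
  have hde : de Q = 1 / (2 * 2 ^ k) := by rw [hk]; rfl
  rw [hde]
  set δ : ℝ := 1 / (2 * 2 ^ k) with hδ
  have hδ0 : 0 < δ := by rw [hδ]; positivity
  refine ⟨4 * Real.pi / a0 + K ^ ((1 : ℝ) / 2 ^ k), by positivity, ?_⟩
  have hev : ∀ᶠ N : ℕ in atTop, X0 / ε ≤ N ∧ Xk / ε ≤ N ∧ bk / Real.pi ≤ N ∧ (1 : ℝ) ≤ N := by
    have h : ∀ x : ℝ, ∀ᶠ N : ℕ in atTop, x ≤ (N : ℝ) := fun x =>
      tendsto_natCast_atTop_atTop.eventually_ge_atTop x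
    exact (h _).and ((h _).and ((h _).and (h _)))
  filter_upwards [hev] with N hN κ hκ hκQ
  obtain ⟨hN1, hN2, hN3, hN4⟩ := hN
  rw [div_le_iff₀ hε, mul_comm] at hN1 hN2
  rw [div_le_iff₀ hπ] at hN3
  have hN4' : 1 ≤ N := by exact_mod_cast hN4
  have hNpos : (0 : ℝ) < N := by linarith
  have hκ0 : 0 < |κ| := abs_pos.2 hκ
  rw [sum_eq]
  set a : ℕ := ⌊ε * N⌋₊ with ha
  have haN : a ≤ N := by
    have h1 : (a : ℝ) ≤ ε * N := Nat.floor_le (by positivity)
    have h2 : (a : ℝ) ≤ N := by nlinarith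
    exact_mod_cast h2
  have hua : ε * N ≤ (a : ℝ) + 1 := (Nat.lt_floor_add_one _).le
  have haL : (a : ℝ) + 1 + ((N - a : ℕ) : ℝ) ≤ 2 * N := by
    rw [Nat.cast_sub haN]
    linarith
  have hLN : N - a ≤ N := Nat.sub_le _ _
  set θ : ℝ := |κ| / (2 * Real.pi) with hθ
  have hθ0 : 0 < θ := by rw [hθ]; positivity
  have hNnn : 0 ≤ (N : ℝ) / |κ| := by positivity
  have hNδ : 0 ≤ (N : ℝ) ^ (1 - δ) := by positivity
  have hKp : 0 ≤ K ^ ((1 : ℝ) / 2 ^ k) := by positivity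
  rcases le_or_gt (2 * (θ * (b0 / (N : ℝ) ^ (0 + 1) * (([] : List ℕ).prod : ℕ)))) 1 with hcase | hcase
  · -- Kusmin-Landau
    have h1 := SD_le (div_pos ha0' (by positivity)) θ hθ0 (hy0 ε N hε hNpos hN1) ((a : ℝ) + 1) (N - a)
      hua haL [] (by simp) rfl hcase
    have h2 : SD φ θ ((a : ℝ) + 1) (N - a) [] =
        ∑ n ∈ range (N - a), e (θ * φ 0 (((a : ℝ) + 1) + (n : ℝ))) := by
      unfold Pool.Agent.TH915.PW.SD
      simp only [List.sum_nil, Nat.sub_zero]
      rfl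
    rw [h2] at h1
    refine h1.trans ?_
    have h3 : 2 / (θ * (a0 / (N : ℝ) ^ (0 + 1)) * (([] : List ℕ).prod : ℕ)) =
        4 * Real.pi / a0 * (N / |κ|) := by
      simp only [List.prod_nil, Nat.cast_one, zero_add, pow_one, mul_one]
      rw [hθ]
      field_simp
      ring
    rw [h3]
    calc 4 * Real.pi / a0 * (N / |κ|) ≤ 4 * Real.pi / a0 * (N / |κ| + (N : ℝ) ^ (1 - δ)) := by
          gcongr
          linarith
      _ ≤ _ := by
          gcongr
          linarith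
  · -- Weyl - van der Corput
    simp only [List.prod_nil, Nat.cast_one, zero_add, pow_one, mul_one] at hcase
    have hκN : Real.pi * N < b0 * |κ| := by
      rw [hθ] at hcase
      have e1 : 2 * (|κ| / (2 * Real.pi) * (b0 / N)) = b0 * |κ| / (Real.pi * N) := by
        field_simp
      rw [e1, lt_div_iff₀ (by positivity), one_mul] at hcase
      exact hcase
    set R : ℝ := Real.pi * (N : ℝ) ^ (k + 1) / (bk * |κ|) with hR
    have hRlow : Real.pi / bk * (N : ℝ) ^ (Q + 3) ≤ R := by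
      rw [hR, div_mul_eq_mul_div, div_le_div_iff₀ hbk' (by positivity)]
      have e1 : (N : ℝ) ^ (k + 1) = (N : ℝ) ^ (Q + 3) * (N : ℝ) ^ Q := by
        rw [← pow_add]
        congr 1
        omega
      rw [e1]
      calc Real.pi * (N : ℝ) ^ (Q + 3) * (bk * |κ|) ≤
            Real.pi * (N : ℝ) ^ (Q + 3) * (bk * (N : ℝ) ^ Q) := by gcongr
        _ = _ := by ring
    have hR1 : 1 ≤ R := by
      refine le_trans ?_ hRlow
      have h1 : (1 : ℝ) ≤ (N : ℝ) ^ (Q + 2) := one_le_pow₀ hN4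
      rw [show Q + 3 = (Q + 2) + 1 by ring, pow_succ, div_mul_eq_mul_div, le_div_iff₀ hbk', one_mul]
      calc bk ≤ N * Real.pi := hN3
        _ = 1 * (N * Real.pi) := (one_mul _).symm
        _ ≤ (N : ℝ) ^ (Q + 2) * (N * Real.pi) := by gcongr
        _ = _ := by ring
    have hRup : R ≤ (N : ℝ) ^ k := by
      rw [hR, div_le_iff₀ (by positivity), pow_succ]
      calc Real.pi * ((N : ℝ) ^ k * N) = (N : ℝ) ^ k * (Real.pi * N) := by ring
        _ ≤ (N : ℝ) ^ k * (b0 * |κ|) := by gcongr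
        _ ≤ (N : ℝ) ^ k * (bk * |κ|) := by gcongr
    obtain ⟨H, hH1, hH2, hH3⟩ := exists_root k hk1 R hR1
    have hHN : H ≤ N := by
      have h1 : (H : ℝ) ^ k ≤ (N : ℝ) ^ k := hH2.trans hRup
      have h2 : (H : ℝ) ≤ N := le_of_pow_le_pow_left₀ (by omega) hNpos.le h1
      exact_mod_cast h2
    have hH1' : (1 : ℝ) ≤ H := by exact_mod_cast hH1
    have hHN' : (H : ℝ) ≤ N := by exact_mod_cast hHN
    have hcond : 2 * (θ * (bk / (N : ℝ) ^ (k + 1) * (H : ℝ) ^ k)) ≤ 1 := by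
      calc 2 * (θ * (bk / (N : ℝ) ^ (k + 1) * (H : ℝ) ^ k)) ≤
            2 * (θ * (bk / (N : ℝ) ^ (k + 1) * R)) := by gcongr
        _ = 1 := by
            rw [hθ, hR]
            field_simp
    have hb := exp_bound' (div_pos hak' (by positivity)) (div_pos hbk' (by positivity)).le θ hθ0
      (hyk ε N hε hNpos hN2) ((a : ℝ) + 1) N (N - a) H hN4' hLN hua haL hH1 hHN hcond
    -- the first term
    have h4H : c1 * N ≤ (2 * (H : ℝ)) ^ 2 := by
      have h1 : (c1 * N) ^ (Q + 1) ≤ ((2 * (H : ℝ)) ^ 2) ^ (Q + 1) := by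
        rw [← pow_mul, show 2 * (Q + 1) = k by omega]
        refine le_trans ?_ hH3
        refine le_trans ?_ hRlow
        rw [mul_pow]
        have e1 : c1 ^ (Q + 1) ≤ Real.pi / bk := by
          refine le_trans ?_ hc12
          calc c1 ^ (Q + 1) ≤ c1 ^ 1 := pow_le_pow_of_le_one hc1'.le hc11 (by omega)
            _ = c1 := pow_one _
        have e2 : (N : ℝ) ^ (Q + 1) ≤ (N : ℝ) ^ (Q + 3) := pow_le_pow_right₀ hN4 (by omega)
        gcongr
      exact le_of_pow_le_pow_left₀ (by omega) (by positivity) h1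
    have hterm1 : 1 / (H : ℝ) ≤ 2 / Real.sqrt c1 * (N : ℝ) ^ (-(1 / 2) : ℝ) := by
      have h1 : Real.sqrt (c1 * N) ≤ 2 * H := by
        rw [← Real.sqrt_sq (by positivity : (0 : ℝ) ≤ 2 * H)]
        exact Real.sqrt_le_sqrt h4H
      rw [Real.sqrt_mul hc1'.le] at h1
      have h2 : 0 < Real.sqrt c1 := Real.sqrt_pos.2 hc1'
      have h3 : 0 < Real.sqrt (N : ℝ) := Real.sqrt_pos.2 hNpos
      rw [Real.rpow_neg hNpos.le, ← Real.sqrt_eq_rpow, ← div_eq_mul_inv, div_div,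
        div_le_div_iff₀ (by positivity) (by positivity), one_mul]
      exact h1
    -- the second term
    have hterm2 : 2 / (θ * (ak / (N : ℝ) ^ (k + 1))) / N * ((∑ l ∈ Ico 1 H, (1 : ℝ) / l) / H) ^ k ≤
        4 * 2 ^ k * (bk / ak) * (1 + 2 * k) ^ k * (N : ℝ) ^ (-(1 / 2) : ℝ) := by
      have hs0 : 0 ≤ ∑ l ∈ Ico 1 H, (1 : ℝ) / l := sum_nonneg fun _ _ => by positivity
      have hlog : ∑ l ∈ Ico 1 H, (1 : ℝ) / l ≤ 1 + Real.log N := by
        refine (harm_le H).trans ?_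
        have := Real.log_le_log (by positivity) hHN'
        linarith
      have hRpos : 0 < R := by linarith
      have h1 : ((∑ l ∈ Ico 1 H, (1 : ℝ) / l) / H) ^ k ≤ (1 + Real.log N) ^ k * 2 ^ k / R := by
        rw [div_pow, div_le_div_iff₀ (by positivity) hRpos]
        calc (∑ l ∈ Ico 1 H, (1 : ℝ) / l) ^ k * R ≤ (1 + Real.log N) ^ k * (2 * (H : ℝ)) ^ k := by
              gcongr
          _ = _ := by rw [mul_pow]; ring
      have h2 := log_pow_le k hk1 N hN4
      have e3 : (N : ℝ) ^ (-(1 / 2) : ℝ) = (N : ℝ) ^ (1 / 2 : ℝ) / N := by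
        rw [← Real.rpow_sub_one hNpos.ne']
        norm_num
      calc 2 / (θ * (ak / (N : ℝ) ^ (k + 1))) / N * ((∑ l ∈ Ico 1 H, (1 : ℝ) / l) / H) ^ k ≤
            2 / (θ * (ak / (N : ℝ) ^ (k + 1))) / N *
              (((1 + 2 * k) ^ k * (N : ℝ) ^ (1 / 2 : ℝ)) * 2 ^ k / R) := by
            gcongr
            refine h1.trans ?_
            gcongr
        _ = _ := by
            rw [hθ, hR, e3]
            field_simp
            ring
    have hfin : (‖∑ n ∈ range (N - a), e (θ * φ 0 (((a : ℝ) + 1) + (n : ℝ)))‖ / N) ^ (2 ^ k) ≤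
        K * (N : ℝ) ^ (-(1 / 2) : ℝ) := by
      refine hb.trans ?_
      calc _ ≤ Cq k * (2 / Real.sqrt c1 * (N : ℝ) ^ (-(1 / 2) : ℝ) +
            4 * 2 ^ k * (bk / ak) * (1 + 2 * k) ^ k * (N : ℝ) ^ (-(1 / 2) : ℝ)) := by
            gcongr
        _ = _ := by rw [hK]; ring
    set S : ℝ := ‖∑ n ∈ range (N - a), e (θ * φ 0 (((a : ℝ) + 1) + (n : ℝ)))‖ with hS
    have hS0 : 0 ≤ S := norm_nonneg _
    have hroot : S / N ≤ K ^ ((1 : ℝ) / 2 ^ k) * (N : ℝ) ^ (-δ) := by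
      have h1 : (S / N) = ((S / N) ^ (2 ^ k)) ^ ((1 : ℝ) / 2 ^ k) := by
        rw [← Real.rpow_natCast, ← Real.rpow_mul (by positivity)]
        push_cast
        rw [mul_one_div_cancel (by positivity), Real.rpow_one]
      rw [h1]
      calc _ ≤ (K * (N : ℝ) ^ (-(1 / 2) : ℝ)) ^ ((1 : ℝ) / 2 ^ k) := by gcongr
        _ = K ^ ((1 : ℝ) / 2 ^ k) * (N : ℝ) ^ (-(1 / 2) * (1 / 2 ^ k) : ℝ) := by
            rw [Real.mul_rpow hK0.le (by positivity), ← Real.rpow_mul (by positivity)]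
        _ = _ := by
            congr 2
            rw [hδ]
            field_simp
    rw [div_le_iff₀ hNpos] at hroot
    calc S ≤ K ^ ((1 : ℝ) / 2 ^ k) * (N : ℝ) ^ (-δ) * N := hroot
      _ = K ^ ((1 : ℝ) / 2 ^ k) * (N : ℝ) ^ (1 - δ) := by
        rw [mul_assoc, sub_eq_neg_add, Real.rpow_add hNpos, Real.rpow_one]
      _ ≤ K ^ ((1 : ℝ) / 2 ^ k) * (N / |κ| + (N : ℝ) ^ (1 - δ)) := by
        gcongr
        linarith
      _ ≤ _ := by
        gcongr
        have : 0 ≤ 4 * Real.pi / a0 := by positivity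
        linarith

end

section

open MeasureTheory Filter Finset Pool.Agent.Y957.MC
open Pool.Agent.Y571.MC

/-- the phase of a polynomial -/
theorem polyD {P : Polynomial ℝ} (hd : 0 < P.natDegree) (hl : 0 < P.leadingCoeff) :
    ∃ (φ : ℕ → ℝ → ℝ) (x₀ : ℝ), Phase φ P.natDegree ∧ ∀ x, x₀ ≤ x → 0 < P.eval x ∧ φ 0 x = Real.log (P.eval x) := by
  obtain ⟨S, hS⟩ : ∃ S : Multiset ℂ, S = (P.map (algebraMap ℝ ℂ)).roots := ⟨_, rfl⟩
  have hP0 : P.map (algebraMap ℝ ℂ) ≠ 0 := by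
    rw [Polynomial.map_ne_zero_iff (algebraMap ℝ ℂ).injective]
    rintro rfl
    simp at hd
  have hcard : S.card = P.natDegree := by
    rw [hS, Polynomial.splits_iff_card_roots.1 (IsAlgClosed.splits _),
      Polynomial.natDegree_map]
  have htop := Polynomial.tendsto_atTop_of_leadingCoeff_nonneg P
    (Polynomial.natDegree_pos_iff_degree_pos.1 hd) hl.le
  obtain ⟨x₁, hx₁⟩ := (htop.eventually_gt_atTop 0).exists_forall_of_atTop
  -- no roots to the right of x₁
  have hroot : ∀ x : ℝ, x₁ ≤ x → (P.map (algebraMap ℝ ℂ)).eval (x : ℂ) = ((P.eval x : ℝ) : ℂ) := by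
    intro x _
    rw [Polynomial.eval_map, ← Complex.coe_algebraMap, Polynomial.eval₂_at_apply]
  obtain ⟨R, hR⟩ : ∃ R : ℝ, ∀ z ∈ S, z.re < R := by
    refine ⟨(S.map fun z => |z.re|).sum + 1, fun z hz => ?_⟩
    have h1 : |z.re| ≤ (S.map fun z => |z.re|).sum :=
      Multiset.single_le_sum (fun y hy => by
        obtain ⟨w, -, rfl⟩ := Multiset.mem_map.1 hy
        exact abs_nonneg _) _ (Multiset.mem_map.2 ⟨z, hz, rfl⟩)
    have := le_abs_self z.re
    linarith
  have hne : ∀ x : ℝ, max x₁ R ≤ x → ∀ z ∈ S, (x : ℂ) - z ≠ 0 := by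
    intro x hx z hz h
    have h1 := congrArg Complex.re (sub_eq_zero.1 h)
    rw [Complex.ofReal_re] at h1
    have := hR z hz
    have := (le_max_right _ _).trans hx
    linarith
  refine ⟨ph P S, max x₁ R, ⟨by exact_mod_cast hd, ⟨max x₁ R, ?_⟩, ?_⟩, ?_⟩
  · intro m x hx
    have hpos := hx₁ x ((le_max_left _ _).trans hx)
    cases m with
    | zero =>
      have h1 : HasDerivAt (fun t => Real.log (P.eval t)) (P.derivative.eval x / P.eval x) x :=
        (P.hasDerivAt x).log hpos.ne'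
      have h2 : P.derivative.eval x / P.eval x = ((S.map fun z => rr 0 z x).sum).re := by
        have h3 := (IsAlgClosed.splits (P.map (algebraMap ℝ ℂ))).eval_derivative_div_eval_of_ne_zero
          (x := (x : ℂ)) (by
            rw [hroot x ((le_max_left _ _).trans hx)]
            exact_mod_cast hpos.ne')
        have h4 : (P.map (algebraMap ℝ ℂ)).derivative.eval (x : ℂ) =
            ((P.derivative.eval x : ℝ) : ℂ) := by
          rw [Polynomial.derivative_map, Polynomial.eval_map, ← Complex.coe_algebraMap,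
            Polynomial.eval₂_at_apply]
        rw [h4, hroot x ((le_max_left _ _).trans hx), ← hS] at h3
        have h5 : (S.map fun z => rr 0 z x) = S.map fun z => 1 / ((x : ℂ) - z) := by
          apply Multiset.map_congr rfl
          intro z _
          unfold rr
          simp
        rw [h5, ← h3, ← Complex.ofReal_div, Complex.ofReal_re]
      show HasDerivAt (fun t => Real.log (P.eval t)) ((S.map fun z => rr 0 z x).sum).re x
      rw [← h2]
      exact h1
    | succ m =>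
      exact re_deriv (sum_deriv m x S (hne x hx))
  · intro m
    have h1 := tendsto_multiset_sum S (f := fun (z : ℂ) (x : ℝ) =>
      (-1) ^ m * ((x : ℂ) ^ (m + 1) * rr m z x)) (x := atTop) (a := fun _ => (m.factorial : ℂ))
      (fun z _ => rr_lim m z)
    have h2 := (Complex.continuous_re.tendsto _).comp h1
    have h3 : ((S.map fun _ => (m.factorial : ℂ)).sum).re = (m.factorial : ℝ) * (P.natDegree : ℝ) := by
      rw [Multiset.map_const', Multiset.sum_replicate, hcard, nsmul_eq_mul]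
      have : (P.natDegree : ℂ) * (m.factorial : ℂ) = (((m.factorial : ℝ) * (P.natDegree : ℝ) : ℝ) : ℂ) := by
        push_cast
        ring
      rw [this, Complex.ofReal_re]
    rw [h3] at h2
    refine h2.congr fun x => ?_
    simp only [Function.comp]
    show _ = (-1) ^ m * (x ^ (m + 1) * ((S.map fun z => rr m z x).sum).re)
    rw [Multiset.sum_map_mul_left, Multiset.sum_map_mul_left, ← mul_assoc, ← mul_assoc]
    have : ((-1 : ℂ)) ^ m * (x : ℂ) ^ (m + 1) = (((-1) ^ m * x ^ (m + 1) : ℝ) : ℂ) := by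
      push_cast
      ring
    rw [this, Complex.re_ofReal_mul]
  · intro x hx
    exact ⟨hx₁ x ((le_max_left _ _).trans hx), rfl⟩

end

end Pool.Agent.U587.PT
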