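import Pool.Agent.Y708.MC.Psg
import Pool.Agent.U587.PT.Uexp

set_option autoImplicit false

/-!
Exponential sums and integrals with an explicit exponent (adaptation of `Pool.Agent.Y708.MC.psg`), and the growth of
functions with such phases (adaptation of `Pool.Agent.Y448.MC.adm_grow`).
-/

namespace Pool.Agent.U587.PT

section

open MeasureTheory Filter Finset Topology
open Pool.Agent.Y957.MC
open Pool.Agent.Y708.MC

/-- exponential sums and integrals, explicit exponent -/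
theorem psgU {p : ℝ → ℝ} {φ : ℕ → ℝ → ℝ} {d x₀ : ℝ} (hph : Phase φ d)
    (hx₀ : ∀ x, x₀ ≤ x → 0 < p x ∧ φ 0 x = Real.log (p x)) {ε : ℝ} (Q : ℕ) (hε : 0 < ε) (hεlt : ε < 1) :
    ∃ C : ℝ, 0 < C ∧ ∀ᶠ N : ℕ in atTop, ∀ κ : ℝ, |κ| ≤ (N : ℝ) ^ Q →
      ‖∑ n ∈ Ioc ⌊ε * N⌋₊ N, Complex.exp (((κ * Real.log (p n) : ℝ) : ℂ) * Complex.I) -
        ∫ v in (⌊ε * N⌋₊ : ℝ)..N, Complex.exp (((κ * Real.log (p v) : ℝ) : ℂ) * Complex.I)‖ ≤
      C * (N : ℝ) ^ (1 - min (de Q) (1 / 2)) := by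
  have hε1 : ε ≤ 1 := hεlt.le
  have hd : 0 < d := hph.1
  obtain ⟨x₁, hx₁, hb⟩ := phase_bounds hph
  obtain ⟨C₁, hC₁, hexp⟩ := expgU hph Q hε hεlt
  obtain ⟨δ₁, hδe⟩ : ∃ δ₁ : ℝ, δ₁ = de Q := ⟨_, rfl⟩
  rw [← hδe] at hexp ⊢
  have hδ₁ : 0 < δ₁ := by rw [hδe]; unfold de; positivity
  refine ⟨4 * d / ε + 2 * C₁ + 12 / d, by positivity, ?_⟩
  have hN1 : ∀ᶠ N : ℕ in atTop, max (max x₀ x₁) 1 + 1 ≤ ε * N ∧ 2 ≤ ε * N := by
    have h1 : Tendsto (fun N : ℕ => ε * (N : ℝ)) atTop atTop :=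
      Tendsto.const_mul_atTop hε tendsto_natCast_atTop_atTop
    exact (h1.eventually_ge_atTop _).and (h1.eventually_ge_atTop _)
  filter_upwards [hexp, hN1, Filter.eventually_ge_atTop 1] with N hN hN2 hN3 κ hκ
  obtain ⟨hN2, hN4⟩ := hN2
  obtain ⟨M, hM⟩ : ∃ M : ℕ, M = ⌊ε * N⌋₊ := ⟨_, rfl⟩
  rw [← hM] at hN ⊢
  have hNr : (1 : ℝ) ≤ N := by exact_mod_cast hN3
  have hM1 : ε * N - 1 < M := by
    rw [hM]
    exact Nat.sub_one_lt_floor _
  have hM2 : (M : ℝ) ≤ ε * N := by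
    rw [hM]
    exact Nat.floor_le (by positivity)
  have hMN : M ≤ N := by
    have : (M : ℝ) ≤ N := hM2.trans (by nlinarith)
    exact_mod_cast this
  have hM3 : max (max x₀ x₁) 1 ≤ M := by linarith
  have hMx0 : x₀ ≤ M := (le_max_left _ _).trans ((le_max_left _ _).trans hM3)
  have hMx1 : x₁ ≤ M := (le_max_right _ _).trans ((le_max_left _ _).trans hM3)
  have hM4 : ε * N / 2 ≤ M := by linarith
  have hMp : (0 : ℝ) < M := by linarith
  have e1 : ∑ n ∈ Ioc M N, Complex.exp (((κ * Real.log (p n) : ℝ) : ℂ) * Complex.I) =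
      ∑ n ∈ Ioc M N, ex (κ * φ 0 n) := by
    apply Finset.sum_congr rfl
    intro n hn
    have h1 : (M : ℝ) ≤ n := by exact_mod_cast (Finset.mem_Ioc.mp hn).1.le
    rw [ex, (hx₀ n (hMx0.trans h1)).2]
  have e2 : ∫ v in (M : ℝ)..N, Complex.exp (((κ * Real.log (p v) : ℝ) : ℂ) * Complex.I) =
      ∫ v in (M : ℝ)..N, ex (κ * φ 0 v) := by
    apply intervalIntegral.integral_congr
    intro v hv
    rw [Set.uIcc_of_le (by exact_mod_cast hMN)] at hv
    simp only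
    rw [ex, (hx₀ v (hMx0.trans hv.1)).2]
  rw [e2]
  have hpow1 : (N : ℝ) ^ (1 / 2 : ℝ) ≤ (N : ℝ) ^ (1 - min δ₁ (1 / 2)) :=
    Real.rpow_le_rpow_of_exponent_le hNr (by
      have := min_le_right δ₁ (1 / 2 : ℝ)
      linarith)
  have hpow2 : (N : ℝ) ^ (1 - δ₁) ≤ (N : ℝ) ^ (1 - min δ₁ (1 / 2)) :=
    Real.rpow_le_rpow_of_exponent_le hNr (by
      have := min_le_left δ₁ (1 / 2 : ℝ)
      linarith)
  have hsq : (N : ℝ) ^ (1 / 2 : ℝ) * (N : ℝ) ^ (1 / 2 : ℝ) = N := by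
    rw [← Real.rpow_add (by linarith)]
    norm_num
  have hsp : 0 < (N : ℝ) ^ (1 / 2 : ℝ) := Real.rpow_pos_of_pos (by linarith) _
  obtain ⟨P, hP⟩ : ∃ P : ℝ, P = (N : ℝ) ^ (1 - min δ₁ (1 / 2)) := ⟨_, rfl⟩
  rw [← hP] at hpow1 hpow2 ⊢
  have hP0 : 0 < P := hsp.trans_le hpow1
  by_cases hcase : |κ| ≤ (N : ℝ) ^ (1 / 2 : ℝ)
  · rw [e1]
    refine (sum_int_le hx₁ hb hd hMx1 hMN κ).trans ?_
    have h1 : 2 * d / (M : ℝ) ≤ 4 * d / ε / N := by
      rw [div_div, div_le_div_iff₀ hMp (by positivity)]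
      nlinarith
    have h2 : N * (|κ| * (2 * d / M)) ≤ N * ((N : ℝ) ^ (1 / 2 : ℝ) * (4 * d / ε / N)) := by
      apply mul_le_mul_of_nonneg_left _ (by positivity)
      exact mul_le_mul hcase h1 (by positivity) hsp.le
    have h3 : N * ((N : ℝ) ^ (1 / 2 : ℝ) * (4 * d / ε / N)) = 4 * d / ε * (N : ℝ) ^ (1 / 2 : ℝ) := by
      field_simp
    have h4 : 4 * d / ε * (N : ℝ) ^ (1 / 2 : ℝ) ≤ 4 * d / ε * P :=
      mul_le_mul_of_nonneg_left hpow1 (by positivity)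
    have h5 : 0 ≤ 2 * C₁ * P := by positivity
    have h6 : 0 ≤ 12 / d * P := by positivity
    rw [h3] at h2
    linarith
  · push Not at hcase
    have hκ0 : κ ≠ 0 := fun h => by
      rw [h, abs_zero] at hcase
      linarith
    have h1 := hN κ hκ0 hκ
    have e1' : ∑ n ∈ Ioc M N, Complex.exp (((κ * φ 0 n : ℝ) : ℂ) * Complex.I) =
        ∑ n ∈ Ioc M N, Complex.exp (((κ * Real.log (p n) : ℝ) : ℂ) * Complex.I) := e1.symm
    rw [e1'] at h1
    have h2 := int_le hd hx₁ hb hMx1 (show (M : ℝ) ≤ N by exact_mod_cast hMN) hκ0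
    have hκp : 0 < |κ| := abs_pos.mpr hκ0
    have h3 : (N : ℝ) / |κ| ≤ (N : ℝ) ^ (1 / 2 : ℝ) := by
      rw [div_le_iff₀ hκp]
      nlinarith
    have h4 := norm_sub_le (∑ n ∈ Ioc M N, Complex.exp (((κ * Real.log (p n) : ℝ) : ℂ) * Complex.I))
      (∫ v in (M : ℝ)..N, ex (κ * φ 0 v))
    have h5 : C₁ * (N / |κ| + (N : ℝ) ^ (1 - δ₁)) ≤ C₁ * (P + P) :=
      mul_le_mul_of_nonneg_left (by linarith) hC₁.le
    have h6 : 12 / d * (N / |κ|) ≤ 12 / d * P :=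
      mul_le_mul_of_nonneg_left (by linarith) (by positivity)
    have h7 : 0 ≤ 4 * d / ε * P := by positivity
    linarith


end

section

open MeasureTheory Filter Finset Pool.Agent.Y957.MC

/-- growth -/
theorem growD {p : ℝ → ℝ} {φ : ℕ → ℝ → ℝ} {d x₀ : ℝ} (hph : Phase φ d)
    (hpos : ∀ x, x₀ ≤ x → 0 < p x ∧ φ 0 x = Real.log (p x)) : ∃ X1 : ℝ, 1 ≤ X1 ∧ (∀ x, X1 ≤ x → 0 < p x) ∧
    ∀ u v, X1 ≤ u → u ≤ v →
      d / 2 * (Real.log v - Real.log u) ≤ Real.log (p v) - Real.log (p u) ∧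
      Real.log (p v) - Real.log (p u) ≤ 2 * d * (Real.log v - Real.log u) := by
  obtain ⟨hd, ⟨x₁, hder⟩, hlim⟩ := hph
  have h0 := hlim 0
  simp only [pow_zero, one_mul, zero_add, pow_one, Nat.factorial_zero, Nat.cast_one] at h0
  have e1 : ∀ᶠ x : ℝ in atTop, d / 2 < x * φ 1 x := h0.eventually_const_lt (by linarith)
  have e2 : ∀ᶠ x : ℝ in atTop, x * φ 1 x < 2 * d := h0.eventually_lt_const (by linarith)
  obtain ⟨x₂, hx₂⟩ := eventually_atTop.1 (e1.and e2)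
  obtain ⟨X1, hX1⟩ : ∃ X1 : ℝ, X1 = max (max 1 x₀) (max x₁ x₂) := ⟨_, rfl⟩
  have b1 : 1 ≤ X1 := hX1 ▸ (le_max_left _ _).trans (le_max_left _ _)
  have b2 : x₀ ≤ X1 := hX1 ▸ (le_max_right _ _).trans (le_max_left _ _)
  have b3 : x₁ ≤ X1 := hX1 ▸ (le_max_left _ _).trans (le_max_right _ _)
  have b4 : x₂ ≤ X1 := hX1 ▸ (le_max_right _ _).trans (le_max_right _ _)
  refine ⟨X1, b1, fun x hx => (hpos x (b2.trans hx)).1, ?_⟩
  have hder1 : ∀ c : ℝ, ∀ x, X1 ≤ x → HasDerivAt (fun y => φ 0 y - c * Real.log y)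
      (φ 1 x - c * x⁻¹) x := by
    intro c x hx
    exact (hder 0 x (b3.trans hx)).sub ((Real.hasDerivAt_log (by linarith)).const_mul c)
  have hder2 : ∀ c : ℝ, ∀ x, X1 ≤ x → HasDerivAt (fun y => c * Real.log y - φ 0 y)
      (c * x⁻¹ - φ 1 x) x := by
    intro c x hx
    exact ((Real.hasDerivAt_log (by linarith)).const_mul c).sub (hder 0 x (b3.trans hx))
  have m1 : MonotoneOn (fun y => φ 0 y - d / 2 * Real.log y) (Set.Ici X1) := by
    refine monotoneOn_of_deriv_nonneg (convex_Ici X1)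
      (fun x hx => (hder1 _ x hx).continuousAt.continuousWithinAt)
      (fun x hx => (hder1 _ x (interior_subset hx)).differentiableAt.differentiableWithinAt) ?_
    intro x hx
    have hx1 : X1 ≤ x := interior_subset hx
    rw [(hder1 _ x hx1).deriv]
    have hx0 : 0 < x := by linarith
    have h1 := (hx₂ x (b4.trans hx1)).1
    have h2 : d / 2 * x⁻¹ ≤ φ 1 x := by
      rw [← div_eq_mul_inv, div_le_iff₀ hx0]
      linarith
    linarith
  have m2 : MonotoneOn (fun y => 2 * d * Real.log y - φ 0 y) (Set.Ici X1) := by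
    refine monotoneOn_of_deriv_nonneg (convex_Ici X1)
      (fun x hx => (hder2 _ x hx).continuousAt.continuousWithinAt)
      (fun x hx => (hder2 _ x (interior_subset hx)).differentiableAt.differentiableWithinAt) ?_
    intro x hx
    have hx1 : X1 ≤ x := interior_subset hx
    rw [(hder2 _ x hx1).deriv]
    have hx0 : 0 < x := by linarith
    have h1 := (hx₂ x (b4.trans hx1)).2
    have h2 : φ 1 x ≤ 2 * d * x⁻¹ := by
      rw [← div_eq_mul_inv, le_div_iff₀ hx0]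
      linarith
    linarith
  intro u v hu huv
  have h1 := m1 (show u ∈ Set.Ici X1 from hu) (show v ∈ Set.Ici X1 from hu.trans huv) huv
  have h2 := m2 (show u ∈ Set.Ici X1 from hu) (show v ∈ Set.Ici X1 from hu.trans huv) huv
  simp only at h1 h2
  rw [(hpos u (b2.trans hu)).2, (hpos v (b2.trans (hu.trans huv))).2] at h1 h2
  constructor <;> linarith

end

end Pool.Agent.U587.PT
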