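import Pool.Agent.Y86.MC.NiceC

set_option autoImplicit false

/-!
From averages over the second halves along powers to averages.
-/

namespace Pool.Agent.U587.PT

open Filter Finset
open scoped Topology

variable {g : ℕ → ℂ}

lemma card_bd (hg : ∀ n, ‖g n‖ ≤ 1) {a b : ℕ} (hab : a ≤ b) : ‖∑ n ∈ Ioc a b, g n‖ ≤ (b : ℝ) - a := by
  refine (norm_sum_le _ _).trans ((sum_le_sum fun n _ => hg n).trans (le_of_eq ?_))
  rw [sum_const, Nat.card_Ioc, nsmul_eq_mul, mul_one, Nat.cast_sub hab]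

/-- halves -/
lemma of_halves (hg : ∀ n, ‖g n‖ ≤ 1)
    (h : ∀ η : ℝ, 0 < η → ∀ᶠ N : ℕ in atTop, ‖∑ n ∈ Ioc (N / 2) N, g n‖ ≤ η * N) :
    Tendsto (fun N : ℕ => (1 / (N : ℂ)) * ∑ n ∈ Icc 1 N, g n) atTop (𝓝 0) := by
  rw [Metric.tendsto_atTop]
  intro ε hε
  obtain ⟨η, hη⟩ : ∃ η : ℝ, η = ε / 8 := ⟨_, rfl⟩
  have hη0 : 0 < η := by rw [hη]; positivity
  obtain ⟨N1, hN1⟩ := eventually_atTop.1 (h η hη0)
  have key : ∀ N : ℕ, ‖∑ n ∈ Ioc 0 N, g n‖ ≤ 2 * η * N + N1 := by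
    intro N
    induction N using Nat.strong_induction_on with
    | _ N ih =>
      rcases Nat.lt_or_ge N (N1 + 1) with h1 | h1
      · have h2 := card_bd hg (Nat.zero_le N)
        rw [Nat.cast_zero, sub_zero] at h2
        have h3 : (N : ℝ) ≤ N1 := by exact_mod_cast (by omega : N ≤ N1)
        have h4 : 0 ≤ 2 * η * N := by positivity
        linarith
      · have hN0 : N / 2 < N := by omega
        have h2 := ih (N / 2) hN0
        have h3 := hN1 N (by omega)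
        have h4 : ((N / 2 : ℕ) : ℝ) ≤ N / 2 := Nat.cast_div_le
        have e : ∑ n ∈ Ioc 0 N, g n = ∑ n ∈ Ioc 0 (N / 2), g n + ∑ n ∈ Ioc (N / 2) N, g n :=
          (sum_Ioc_consecutive g (Nat.zero_le _) hN0.le).symm
        rw [e]
        refine (norm_add_le _ _).trans ((add_le_add h2 h3).trans ?_)
        nlinarith
  obtain ⟨N2, hN2⟩ := exists_nat_gt (4 * (N1 : ℝ) / ε)
  refine ⟨max N2 1, fun N hN => ?_⟩
  have hNp : (0 : ℝ) < N := by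
    have : 1 ≤ N := (le_max_right _ _).trans hN
    exact_mod_cast this
  have hN3 : (N2 : ℝ) ≤ N := by exact_mod_cast (le_max_left _ _).trans hN
  rw [dist_zero_right, norm_mul, norm_div, norm_one, Complex.norm_natCast, one_div, inv_mul_lt_iff₀ hNp]
  have e : Icc 1 N = Ioc 0 N := by
    ext n
    simp only [mem_Icc, mem_Ioc]
    omega
  rw [e]
  refine lt_of_le_of_lt (key N) ?_
  have h5 : 4 * (N1 : ℝ) < ε * N := by
    rw [div_lt_iff₀ hε] at hN2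
    nlinarith
  rw [hη]
  nlinarith

/-- along powers -/
theorem half_det (hg : ∀ n, ‖g n‖ ≤ 1) {m : ℕ} (hm : 0 < m)
    (h : Tendsto (fun l : ℕ => (1 / (((l + 1) ^ m : ℕ) : ℂ)) *
      ∑ n ∈ Ioc (((l + 1) ^ m) / 2) ((l + 1) ^ m), g n) atTop (𝓝 0)) :
    Tendsto (fun N : ℕ => (1 / (N : ℂ)) * ∑ n ∈ Icc 1 N, g n) atTop (𝓝 0) := by
  refine of_halves hg fun η hη => ?_
  have hr : Tendsto (fun l : ℕ => (1 + 1 / ((l : ℝ) + 1)) ^ m - 1) atTop (nhds 0) := by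
    have h1 : Tendsto (fun l : ℕ => 1 + 1 / ((l : ℝ) + 1)) atTop (nhds (1 + 0)) :=
      tendsto_const_nhds.add tendsto_one_div_add_atTop_nhds_zero_nat
    have h2 := (h1.pow m).sub_const 1
    rw [add_zero, one_pow, sub_self] at h2
    exact h2
  rw [Metric.tendsto_atTop] at h hr
  obtain ⟨l₁, hl₁⟩ := h (η / 4) (by positivity)
  obtain ⟨l₂, hl₂⟩ := hr (η / 8) (by positivity)
  obtain ⟨l₃, hl₃⟩ := exists_nat_gt (4 / η)
  obtain ⟨l₀, hl₀⟩ : ∃ l₀, l₀ = max (max l₁ l₂) l₃ := ⟨_, rfl⟩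
  filter_upwards [eventually_ge_atTop ((l₀ + 2) ^ m), eventually_ge_atTop 1] with N hN hN1
  obtain ⟨l, hNl, hNl'⟩ := Pool.Agent.Y86.MC.exists_root hm hN1
  have hl : l₀ ≤ l := by
    by_contra hcon
    push Not at hcon
    have : (l + 2) ^ m ≤ (l₀ + 2) ^ m := Nat.pow_le_pow_left (by omega) m
    omega
  have e1 := hl₁ l (((le_max_left _ _).trans (le_max_left _ _)).trans (hl₀ ▸ hl))
  have e2 := hl₂ l (((le_max_right _ _).trans (le_max_left _ _)).trans (hl₀ ▸ hl))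
  rw [dist_zero_right] at e1 e2
  obtain ⟨M, hM⟩ : ∃ M : ℕ, M = (l + 1) ^ m := ⟨_, rfl⟩
  rw [← hM] at hNl e1
  have hMpos : 0 < M := by rw [hM]; positivity
  have hMp : (0 : ℝ) < M := by exact_mod_cast hMpos
  have hMN : (M : ℝ) ≤ N := by exact_mod_cast hNl
  have h3l : l₃ ≤ l := (le_max_right _ _).trans (hl₀ ▸ hl)
  have hlM : l ≤ M := by
    rw [hM]
    calc l ≤ l + 1 := by omega
      _ ≤ (l + 1) ^ m := Nat.le_self_pow hm.ne' _
  have h4M : 4 ≤ η * M := by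
    have : (l₃ : ℝ) ≤ M := by exact_mod_cast h3l.trans hlM
    rw [div_lt_iff₀ hη] at hl₃
    nlinarith
  -- the difference of the sides
  have hNM : (N : ℝ) - M ≤ η / 8 * M := by
    have h7 : (N : ℝ) ≤ ((l : ℝ) + 2) ^ m := by exact_mod_cast hNl'.le
    have h8 : ((l : ℝ) + 2) ^ m = M * (1 + 1 / ((l : ℝ) + 1)) ^ m := by
      rw [hM]
      push_cast
      rw [← mul_pow]
      congr 1
      field_simp
      ring
    have h9 := (abs_lt.1 (by simpa [Real.norm_eq_abs] using e2 : |(1 + 1 / ((l : ℝ) + 1)) ^ m - 1| < η / 8)).2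
    rw [h8] at h7
    nlinarith
  have f1 : ‖∑ n ∈ Ioc (M / 2) M, g n‖ ≤ η / 4 * M := by
    rw [norm_mul, norm_div, norm_one, Complex.norm_natCast, one_div, inv_mul_lt_iff₀ hMp] at e1
    linarith
  have hMN2 : M / 2 ≤ N / 2 := Nat.div_le_div_right hNl
  have hN2 : N / 2 ≤ N := Nat.div_le_self _ _
  have hM2 : M / 2 ≤ M := Nat.div_le_self _ _
  -- `Ioc (M/2) N = Ioc (M/2) M ∪ Ioc M N = Ioc (M/2) (N/2) ∪ Ioc (N/2) N`
  have s1 : ∑ n ∈ Ioc (M / 2) M, g n + ∑ n ∈ Ioc M N, g n = ∑ n ∈ Ioc (M / 2) N, g n :=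
    sum_Ioc_consecutive g hM2 hNl
  have s2 : ∑ n ∈ Ioc (M / 2) (N / 2), g n + ∑ n ∈ Ioc (N / 2) N, g n = ∑ n ∈ Ioc (M / 2) N, g n :=
    sum_Ioc_consecutive g hMN2 hN2
  have s3 : ∑ n ∈ Ioc (N / 2) N, g n = ∑ n ∈ Ioc (M / 2) M, g n + ∑ n ∈ Ioc M N, g n -
      ∑ n ∈ Ioc (M / 2) (N / 2), g n := by
    rw [s1, ← s2]
    ring
  rw [s3]
  have g1 := card_bd hg hNl
  have g2 := card_bd hg hMN2
  have g3 : ((N / 2 : ℕ) : ℝ) - ((M / 2 : ℕ) : ℝ) ≤ (N : ℝ) - M + 1 := by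
    have : N / 2 ≤ M / 2 + (N - M) + 1 := by omega
    have h5 : ((N / 2 : ℕ) : ℝ) ≤ ((M / 2 + (N - M) + 1 : ℕ) : ℝ) := by exact_mod_cast this
    push_cast [Nat.cast_sub hNl] at h5
    push_cast
    linarith
  calc ‖∑ n ∈ Ioc (M / 2) M, g n + ∑ n ∈ Ioc M N, g n - ∑ n ∈ Ioc (M / 2) (N / 2), g n‖
      ≤ ‖∑ n ∈ Ioc (M / 2) M, g n‖ + ‖∑ n ∈ Ioc M N, g n‖ + ‖∑ n ∈ Ioc (M / 2) (N / 2), g n‖ :=
        (norm_sub_le _ _).trans (add_le_add (norm_add_le _ _) le_rfl)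
    _ ≤ η / 4 * M + ((N : ℝ) - M) + ((N : ℝ) - M + 1) := add_le_add (add_le_add f1 g1) (g2.trans g3)
    _ ≤ η * N := by nlinarith

end Pool.Agent.U587.PT
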