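import Pool.Agent.U587.PT.BlkD
import Pool.Agent.U587.PT.Half
import Pool.Agent.Y448.MC.Detg
import Pool.Agent.Y256.MC.Mul
import Pool.Agent.Y957.MC.Poly
import Pool.Agent.U587.DX.Dim
import Pool.Agent.U587.ET.Core2

set_option autoImplicit false

/-!
Several flows at the same polynomial times: the exceptional set for functions which are Lipschitz along the flows.
-/

namespace Pool.Agent.U587.PT

open MeasureTheory Filter Finset
open Pool.Agent.Y957.MC (IsFlow Mod Adm)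
open Pool.Agent.Y448.MC (GG GG_meas GG_norm sum_GG)
open Pool.Agent.U587.ET (prod_diff_c norm_prod_le_one)
open scoped Topology ENNReal

universe u

/-- modulus of continuity, explicit -/
theorem mod_lip {F : ℝ → ℂ} {L : ℝ} (hL : 0 ≤ L) (hF : ∀ v w, ‖F v - F w‖ ≤ L * |v - w|) {Λ : ℝ} (hΛ : 1 ≤ Λ)
    {M : ℝ} (hM : 1 ≤ M) : Mod Λ F (L * (2 * Real.exp Λ) * Λ) M := by
  intro t ht0 ht1
  have h1 : ‖∫ s in (0 : ℝ)..Λ, ‖F (M * Real.exp (s + t)) - F (M * Real.exp s)‖‖ ≤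
      (L * (2 * Real.exp Λ) * M * t) * |Λ - 0| := by
    refine intervalIntegral.norm_integral_le_of_norm_le_const fun s hs => ?_
    rw [Set.uIoc_of_le (by linarith)] at hs
    rw [norm_norm]
    have h2 := hF (M * Real.exp (s + t)) (M * Real.exp s)
    have h3 : |M * Real.exp (s + t) - M * Real.exp s| ≤ M * Real.exp Λ * (2 * t) := by
      have e2 : M * Real.exp (s + t) - M * Real.exp s = M * Real.exp s * (Real.exp t - 1) := by
        rw [Real.exp_add]; ring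
      have h4 : Real.exp t - 1 ≤ 2 * t := by
        have h5 : |Real.exp t - 1 - t| ≤ t ^ 2 := Real.abs_exp_sub_one_sub_id_le (by rw [abs_of_pos ht0]; exact ht1)
        have h6 := (abs_le.mp h5).2
        nlinarith
      have h5 : 0 ≤ Real.exp t - 1 := by
        have := Real.add_one_le_exp t; linarith
      rw [e2, abs_of_nonneg (by positivity)]
      have h6 : Real.exp s ≤ Real.exp Λ := Real.exp_le_exp.mpr hs.2
      gcongr
    calc ‖F (M * Real.exp (s + t)) - F (M * Real.exp s)‖ ≤ L * (M * Real.exp Λ * (2 * t)) :=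
          h2.trans (by gcongr)
      _ = _ := by ring
  rw [sub_zero, abs_of_pos (by linarith : 0 < Λ)] at h1
  calc _ ≤ ‖∫ s in (0 : ℝ)..Λ, ‖F (M * Real.exp (s + t)) - F (M * Real.exp s)‖‖ := Real.le_norm_self _
    _ ≤ _ := h1
    _ = _ := by ring

lemma mod_mono {Λ : ℝ} {F : ℝ → ℂ} {C C' M : ℝ} (hC : C ≤ C') (hM : 1 ≤ M) (h : Mod Λ F C M) : Mod Λ F C' M := by
  intro t h0 h1
  refine (h t h0 h1).trans ?_
  gcongr

/-- growth of a polynomial -/
lemma poly_real (P : Polynomial ℝ) : ∃ C : ℝ, 0 ≤ C ∧ ∀ (N : ℕ) (v : ℝ), 1 ≤ N → 0 ≤ v → v ≤ N →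
    |P.eval v| ≤ C * (N : ℝ) ^ P.natDegree := by
  refine ⟨∑ i ∈ range (P.natDegree + 1), |P.coeff i|, sum_nonneg fun i _ => abs_nonneg _, ?_⟩
  intro N v hN hv0 hvN
  have hN1 : (1 : ℝ) ≤ N := by exact_mod_cast hN
  rw [Polynomial.eval_eq_sum_range, sum_mul]
  refine (abs_sum_le_sum_abs _ _).trans (sum_le_sum fun i hi => ?_)
  rw [abs_mul, abs_pow, abs_of_nonneg hv0]
  refine mul_le_mul_of_nonneg_left ?_ (abs_nonneg _)
  calc v ^ i ≤ (N : ℝ) ^ i := pow_le_pow_left₀ hv0 hvN i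
    _ ≤ (N : ℝ) ^ P.natDegree := pow_le_pow_right₀ hN1 (by rw [mem_range] at hi; omega)

variable {X : Type u} [mX : MeasurableSpace X] {μ : Measure X}

/-- the product along the flows -/
noncomputable def pf {n : ℕ} (τ : Fin n → ℝ → X → X) (f : Fin n → X → ℂ) (x : X) (v : ℝ) : ℂ :=
  ∏ j, f j (τ j v x)

/-- the difference between the discrete and the continuous averages tends to zero almost everywhere -/
def Cl (μ : Measure X) {n : ℕ} (τ : Fin n → ℝ → X → X) (f : Fin n → X → ℂ) (P : Polynomial ℝ) (a : ℝ) : Prop :=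
  ∀ᵐ x ∂μ, Tendsto (fun N : ℕ => (1 / (N : ℂ)) * (∑ m ∈ Icc 1 N, pf τ f x (a * P.eval (m : ℝ)) -
    ∫ v in (0 : ℝ)..N, pf τ f x (a * P.eval v))) atTop (𝓝 0)

/-- nice families -/
structure Nf {n : ℕ} (τ : Fin n → ℝ → X → X) (f : Fin n → X → ℂ) (L : Fin n → ℝ) : Prop where
  meas : ∀ j, Measurable (f j)
  bd : ∀ j x, ‖f j x‖ ≤ 1
  lip : ∀ j s t x, ‖f j (τ j s x) - f j (τ j t x)‖ ≤ L j * |s - t|

section

variable {n : ℕ} {τ : Fin n → ℝ → X → X} {f : Fin n → X → ℂ} {L : Fin n → ℝ}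

lemma pf_bd (hf : Nf τ f L) (x : X) (v : ℝ) : ‖pf τ f x v‖ ≤ 1 := norm_prod_le_one _ _ fun j _ => hf.bd j _

lemma pf_lip (hf : Nf τ f L) (x : X) (v w : ℝ) : ‖pf τ f x v - pf τ f x w‖ ≤ (∑ j, |L j|) * |v - w| := by
  refine (prod_diff_c univ _ _ (fun j _ => hf.bd j _) fun j _ => hf.bd j _).trans ?_
  rw [sum_mul]
  exact sum_le_sum fun j _ => (hf.lip j _ _ x).trans (mul_le_mul_of_nonneg_right (le_abs_self _) (abs_nonneg _))

lemma pf_meas (hτ : ∀ j, IsFlow μ (τ j)) (hf : ∀ j, Measurable (f j)) :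
    Measurable fun q : X × ℝ => pf τ f q.1 q.2 :=
  Finset.measurable_prod _ fun j _ => (hf j).comp ((hτ j).meas.comp (measurable_snd.prodMk measurable_fst))

lemma pf_meas_v (hτ : ∀ j, IsFlow μ (τ j)) (hf : ∀ j, Measurable (f j)) (x : X) : Measurable (pf τ f x) :=
  (pf_meas hτ hf).comp (measurable_const.prodMk measurable_id)

/-- the half block -/
noncomputable def hb (τ : Fin n → ℝ → X → X) (f : Fin n → X → ℂ) (P : Polynomial ℝ) (N : ℕ) (a : ℝ) (x : X) : ℂ :=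
  (1 / (N : ℂ)) * ∑ m ∈ Ioc (N / 2) N, GG (fun v => P.eval v) (pf τ f x) m a

lemma GG_joint (hτ : ∀ j, IsFlow μ (τ j)) (hf : ∀ j, Measurable (f j)) (P : Polynomial ℝ) (m : ℕ) :
    Measurable fun q : ℝ × X => GG (fun v => P.eval v) (pf τ f q.2) m q.1 := by
  unfold GG
  have hP : Measurable fun v : ℝ => P.eval v := P.continuous.measurable
  refine Measurable.const_mul ?_ _
  refine Measurable.sub ?_ ?_
  · exact (pf_meas hτ hf).comp (measurable_snd.prodMk (measurable_fst.mul_const _))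
  · have h1 : (fun q : ℝ × X => ∫ v in ((m : ℝ) - 1)..m, pf τ f q.2 (q.1 * P.eval v)) =
        fun q : ℝ × X => ∫ v in Set.Ioc ((m : ℝ) - 1) m, pf τ f q.2 (q.1 * P.eval v) := by
      funext q
      exact intervalIntegral.integral_of_le (by linarith)
    rw [h1]
    have h2 : StronglyMeasurable (fun q : (ℝ × X) × ℝ => pf τ f q.1.2 (q.1.1 * P.eval q.2)) :=
      ((pf_meas hτ hf).comp ((measurable_snd.comp measurable_fst).prodMk
        ((measurable_fst.comp measurable_fst).mul (hP.comp measurable_snd)))).stronglyMeasurable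
    exact (h2.integral_prod_right' (ν := volume.restrict (Set.Ioc ((m : ℝ) - 1) m))).measurable

lemma hb_meas (hτ : ∀ j, IsFlow μ (τ j)) (hf : ∀ j, Measurable (f j)) (P : Polynomial ℝ) (N : ℕ) :
    Measurable fun q : ℝ × X => hb τ f P N q.1 q.2 := by
  unfold hb
  exact Measurable.const_mul (Finset.measurable_sum _ fun m _ => GG_joint hτ hf P m) _

lemma hb_bd (hf : Nf τ f L) (P : Polynomial ℝ) (N : ℕ) (a : ℝ) (x : X) : ‖hb τ f P N a x‖ ≤ 1 := by
  unfold hb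
  rw [norm_mul, norm_div, norm_one, Complex.norm_natCast]
  rcases Nat.eq_zero_or_pos N with hN | hN
  · rw [hN]; simp
  · have h1 : ‖∑ m ∈ Ioc (N / 2) N, GG (fun v => P.eval v) (pf τ f x) m a‖ ≤ N := by
      refine (norm_sum_le _ _).trans ((sum_le_sum fun m _ => GG_norm (fun v => pf_bd hf x v) m a).trans ?_)
      rw [sum_const, Nat.card_Ioc, nsmul_eq_mul, mul_one]
      exact_mod_cast Nat.sub_le _ _
    have hN' : (0 : ℝ) < N := Nat.cast_pos.2 hN
    rw [one_div, inv_mul_le_iff₀ hN', mul_one]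
    exact h1

lemma hb_lip (hτ : ∀ j, IsFlow μ (τ j)) (hf : Nf τ f L) {P : Polynomial ℝ} {Cp : ℝ}
    (hCp : ∀ (N : ℕ) (v : ℝ), 1 ≤ N → 0 ≤ v → v ≤ N → |P.eval v| ≤ Cp * (N : ℝ) ^ P.natDegree)
    {N : ℕ} (hN : 1 ≤ N) (a b : ℝ) (x : X) :
    ‖hb τ f P N a x - hb τ f P N b x‖ ≤ (∑ j, |L j|) * Cp * (N : ℝ) ^ P.natDegree * |a - b| := by
  obtain ⟨K, hK⟩ : ∃ K : ℝ, K = ∑ j, |L j| := ⟨_, rfl⟩
  have hK0 : 0 ≤ K := by rw [hK]; exact sum_nonneg fun j _ => abs_nonneg _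
  have hCN : 0 ≤ Cp * (N : ℝ) ^ P.natDegree := (abs_nonneg _).trans (hCp N 0 hN le_rfl (Nat.cast_nonneg _))
  rw [← hK]
  have hii : ∀ (c : ℝ) (u v : ℝ), IntervalIntegrable (fun v => pf τ f x (c * P.eval v)) volume u v := by
    intro c u v
    refine (intervalIntegrable_const (c := (1 : ℝ))).mono_fun
      ((pf_meas_v hτ hf.meas x).comp (measurable_const.mul P.continuous.measurable)).aestronglyMeasurable
      (ae_of_all _ fun y => ?_)
    rw [norm_one]
    exact pf_bd hf x _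
  have hpt : ∀ v : ℝ, 0 ≤ v → v ≤ N → ‖pf τ f x (a * P.eval v) - pf τ f x (b * P.eval v)‖ ≤
      K * (Cp * (N : ℝ) ^ P.natDegree) * |a - b| := by
    intro v h0 h1
    refine (pf_lip hf x _ _).trans ?_
    rw [← hK, ← sub_mul, abs_mul, mul_assoc]
    refine mul_le_mul_of_nonneg_left ?_ hK0
    rw [mul_comm |a - b|]
    exact mul_le_mul_of_nonneg_right (hCp N v hN h0 h1) (abs_nonneg _)
  have hterm : ∀ m ∈ Ioc (N / 2) N, ‖GG (fun v => P.eval v) (pf τ f x) m a - GG (fun v => P.eval v) (pf τ f x) m b‖ ≤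
      K * (Cp * (N : ℝ) ^ P.natDegree) * |a - b| := by
    intro m hm
    rw [mem_Ioc] at hm
    have hm1 : (1 : ℝ) ≤ m := by
      have : 1 ≤ m := by omega
      exact_mod_cast this
    have hmN : (m : ℝ) ≤ N := by exact_mod_cast hm.2
    unfold GG
    have e1 : (1 / 2 : ℂ) * (pf τ f x (a * P.eval (m : ℝ)) - ∫ v in ((m : ℝ) - 1)..m, pf τ f x (a * P.eval v)) -
        (1 / 2 : ℂ) * (pf τ f x (b * P.eval (m : ℝ)) - ∫ v in ((m : ℝ) - 1)..m, pf τ f x (b * P.eval v)) =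
        (1 / 2 : ℂ) * ((pf τ f x (a * P.eval (m : ℝ)) - pf τ f x (b * P.eval (m : ℝ))) -
          ∫ v in ((m : ℝ) - 1)..m, (pf τ f x (a * P.eval v) - pf τ f x (b * P.eval v))) := by
      rw [intervalIntegral.integral_sub (hii a _ _) (hii b _ _)]
      ring
    rw [e1, norm_mul]
    have h3 : ‖(1 / 2 : ℂ)‖ = 1 / 2 := by norm_num
    have h4 : ‖∫ v in ((m : ℝ) - 1)..m, (pf τ f x (a * P.eval v) - pf τ f x (b * P.eval v))‖ ≤
        K * (Cp * (N : ℝ) ^ P.natDegree) * |a - b| * |(m : ℝ) - (m - 1)| := by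
      refine intervalIntegral.norm_integral_le_of_norm_le_const fun v hv => ?_
      rw [Set.uIoc_of_le (by linarith)] at hv
      exact hpt v (by linarith [hv.1]) (hv.2.trans hmN)
    rw [show (m : ℝ) - (m - 1) = 1 by ring, abs_one, mul_one] at h4
    rw [h3]
    have h5 := (norm_sub_le (pf τ f x (a * P.eval (m : ℝ)) - pf τ f x (b * P.eval (m : ℝ)))
      (∫ v in ((m : ℝ) - 1)..m, (pf τ f x (a * P.eval v) - pf τ f x (b * P.eval v)))).trans
      (add_le_add (hpt m (by linarith) hmN) h4)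
    linarith
  have hNp : (0 : ℝ) < N := by exact_mod_cast hN
  unfold hb
  rw [← mul_sub, ← sum_sub_distrib, norm_mul, norm_div, norm_one, Complex.norm_natCast, one_div,
    inv_mul_le_iff₀ hNp]
  refine (norm_sum_le _ _).trans ((sum_le_sum hterm).trans ?_)
  rw [sum_const, Nat.card_Ioc, nsmul_eq_mul]
  have h6 : ((N - N / 2 : ℕ) : ℝ) ≤ N := by exact_mod_cast Nat.sub_le _ _
  have h7 : 0 ≤ K * (Cp * (N : ℝ) ^ P.natDegree) * |a - b| := by positivity
  calc ((N - N / 2 : ℕ) : ℝ) * (K * (Cp * (N : ℝ) ^ P.natDegree) * |a - b|)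
      ≤ N * (K * (Cp * (N : ℝ) ^ P.natDegree) * |a - b|) := mul_le_mul_of_nonneg_right h6 h7
    _ = _ := by ring

end

end Pool.Agent.U587.PT
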