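import Pool.Agent.U587.PT.Ae2
import Pool.Agent.U587.EV.Gen

set_option autoImplicit false

/-!
One exceptional set for all bounded functions.
-/

namespace Pool.Agent.U587.PT

open MeasureTheory Filter Finset
open Pool.Agent.Y957.MC (IsFlow Mod Adm flowInv smo)
open Pool.Agent.R506.TDFG (exists_version)
open Pool.Agent.U587.EV (ae_orb)
open scoped Topology ENNReal

universe u

/-- normalized functions -/
theorem norm_case {P : Polynomial ℝ} {d : ℕ} (hd : 0 < P.natDegree) (hdD : P.natDegree ≤ d)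
    (X : Type u) [MeasurableSpace X] (μ : Measure X) [IsProbabilityMeasure μ] [IsSeparable μ] (n : ℕ)
      (τ : Fin n → ℝ → X → X) (hτ : ∀ j, IsFlow μ (τ j)) :
      ∃ D : Set ℝ, dimH D ≤ dk (kD d) d ∧ ∀ a : ℝ, a ∉ D → ∀ f : Fin n → X → ℂ, (∀ j, Measurable (f j)) →
        (∀ j x, ‖f j x‖ ≤ 1 / 4) →
        Tendsto (fun N : ℕ => ∫ x, ‖dl τ f P a N x‖ ^ 2 ∂μ) atTop (𝓝 0) ∧
        ((∀ j, DX.Sg μ (τ j) P a) → Cl μ τ f P a ∧ ∀ s : ℝ, 0 < s * (a * P.leadingCoeff) → ∀ᵐ x ∂μ, ∀ L : ℂ,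
          Tendsto (fun V : ℝ => (1 / (V : ℂ)) * ∫ v in (0 : ℝ)..V, pf τ f x (s * v)) atTop (𝓝 L) →
          Tendsto (fun N : ℕ => (1 / (N : ℂ)) * ∑ m ∈ Icc 1 N, pf τ f x (a * P.eval (m : ℝ))) atTop (𝓝 L)) := by
  obtain ⟨K, hK, hR⟩ := regc_poly hd
  choose F hFm hF1 hFl hFd using fun j => DX.lip_family (hτ j)
  choose Lc hLc using hFl
  refine ⟨⋃ c : Fin n → ℕ, {a : ℝ | ¬ Cl μ τ (fun j => F j (c j)) P a}, ?_, ?_⟩
  · rw [dimH_iUnion]
    refine iSup_le fun c => ?_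
    exact (bad_all hd hdD X μ n τ (fun j => F j (c j)) (fun j => Lc j (c j)) hτ
      ⟨fun j => hFm j _, fun j x => hF1 j _ x, fun j u v x => hLc j _ u v x⟩).trans
      (dk_mono (by have := kD_two d; omega) hd hdD)
  intro a ha f hf hf1
  simp only [Set.mem_iUnion, Set.mem_ofPred_eq, not_exists, not_not] at ha
  have hf1' : ∀ j x, ‖f j x‖ ≤ 1 := fun j x => (hf1 j x).trans (by norm_num)
  have hch : ∀ (i : ℕ) (j : Fin n), ∃ l, ∫ x, ‖f j x - F j l x‖ ∂μ < 1 / ((i : ℝ) + 1) := fun i j =>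
    hFd j (f j) (hf j) (hf1 j) _ (by positivity)
  choose c hc using hch
  have hfg : ∀ j, Tendsto (fun i => ∫ x, ‖f j x - F j (c i j) x‖ ∂μ) atTop (𝓝 0) := fun j =>
    squeeze_zero (fun i => integral_nonneg fun x => norm_nonneg _) (fun i => (hc i j).le)
      tendsto_one_div_add_atTop_nhds_zero_nat
  have hCl : ∀ i, Cl μ τ (fun j => F j (c i j)) P a := fun i => ha (c i)
  refine ⟨tr_L2 hτ hf hf1' (g := fun i j => F j (c i j)) (fun i j => hFm j _) (fun i j x => hF1 j _ x) hfg hCl, ?_⟩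
  intro hS
  refine ⟨?_, fun s hs => ?_⟩
  · rcases eq_or_ne a 0 with ha0 | ha0
    · rw [ha0]
      exact cl_zero τ f P
    · exact tr_cl hτ hd ha0 hS hf hf1' (g := fun i j => F j (c i j)) (fun i j => hFm j _) (fun i j x => hF1 j _ x)
        hfg hCl
  exact tr_ae hτ hS hf hf1' (g := fun i j => F j (c i j)) (fun i j => hFm j _) (fun i j x => hF1 j _ x)
    (fun i j => ⟨_, fun u v x => hLc j (c i j) u v x⟩) hfg hCl hK (hR a s hs)

/-- all bounded functions -/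
theorem gen_case {P : Polynomial ℝ} {d : ℕ} (hd : 0 < P.natDegree) (hdD : P.natDegree ≤ d)
    (X : Type u) [MeasurableSpace X] (μ : Measure X) [IsProbabilityMeasure μ] [IsSeparable μ] (n : ℕ)
      (τ : Fin n → ℝ → X → X) (hτ : ∀ j, IsFlow μ (τ j)) :
      ∃ D : Set ℝ, dimH D ≤ dk (kD d) d ∧ ∀ a : ℝ, a ∉ D → ∀ f : Fin n → X → ℂ, (∀ j, AEStronglyMeasurable (f j) μ) →
        (∀ j, ∃ C : ℝ, ∀ᵐ x ∂μ, ‖f j x‖ ≤ C) →
        Tendsto (fun N : ℕ => ∫ x, ‖dl τ f P a N x‖ ^ 2 ∂μ) atTop (𝓝 0) ∧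
        ((∀ j, DX.Sg μ (τ j) P a) → Cl μ τ f P a ∧ ∀ s : ℝ, 0 < s * (a * P.leadingCoeff) → ∀ᵐ x ∂μ, ∀ L : ℂ,
          Tendsto (fun V : ℝ => (1 / (V : ℂ)) * ∫ v in (0 : ℝ)..V, pf τ f x (s * v)) atTop (𝓝 L) →
          Tendsto (fun N : ℕ => (1 / (N : ℂ)) * ∑ m ∈ Icc 1 N, pf τ f x (a * P.eval (m : ℝ))) atTop (𝓝 L)) := by
  obtain ⟨D, hD, hDa⟩ := norm_case hd hdD X μ n τ hτ
  refine ⟨D, hD, fun a ha f hf hfb => ?_⟩
  choose g hgm hgb hfg using fun j => exists_version (hf j) (hfb j)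
  choose K hK using hgb
  obtain ⟨Q, hQ⟩ : ∃ Q : ℝ, Q = 8 * (∑ j, |K j| + 1) := ⟨_, rfl⟩
  have hQ0 : 0 < Q := by
    rw [hQ]
    have : 0 ≤ ∑ j, |K j| := Finset.sum_nonneg fun j _ => abs_nonneg _
    linarith
  have hQc : (Q : ℂ) ≠ 0 := by exact_mod_cast hQ0.ne'
  have hQn : (Q : ℂ) ^ n ≠ 0 := pow_ne_zero _ hQc
  have hgQ : ∀ j x, ‖(Q : ℂ)⁻¹ * g j x‖ ≤ 1 / 4 := by
    intro j x
    rw [norm_mul, norm_inv, Complex.norm_real, Real.norm_of_nonneg hQ0.le, inv_mul_le_iff₀ hQ0]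
    have h1 := (hK j x).trans (le_abs_self _)
    have h2 : |K j| ≤ ∑ j, |K j| :=
      Finset.single_le_sum (f := fun j => |K j|) (fun i _ => abs_nonneg _) (Finset.mem_univ j)
    rw [hQ]
    linarith [abs_nonneg (K j)]
  obtain ⟨h1, h2⟩ := hDa a ha (fun j x => (Q : ℂ)⁻¹ * g j x) (fun j => measurable_const.mul (hgm j)) hgQ
  have epf : ∀ x v, pf τ (fun j x => (Q : ℂ)⁻¹ * g j x) x v = ((Q : ℂ) ^ n)⁻¹ * pf τ g x v := fun x v => by
    unfold pf
    rw [prod_mul_distrib, prod_const, card_univ, Fintype.card_fin, inv_pow]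
  have hver : ∀ᵐ x ∂μ, ∀ m : ℕ, pf τ f x (a * P.eval (m : ℝ)) = pf τ g x (a * P.eval (m : ℝ)) := by
    rw [ae_all_iff]
    intro m
    have h3 : ∀ᵐ x ∂μ, ∀ j, f j (τ j (a * P.eval (m : ℝ)) x) = g j (τ j (a * P.eval (m : ℝ)) x) := by
      rw [ae_all_iff]
      intro j
      exact ((hτ j).mp _).quasiMeasurePreserving.ae (hfg j)
    filter_upwards [h3] with x hx
    exact prod_congr rfl fun j _ => hx j
  have hverc : ∀ c : ℝ → ℝ, Measurable c → ∀ᵐ x ∂μ, ∀ᵐ v : ℝ, pf τ f x (c v) = pf τ g x (c v) := by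
    intro c hc
    have h3 : ∀ᵐ x ∂μ, ∀ j, ∀ᵐ v : ℝ, f j (τ j (c v) x) = g j (τ j (c v) x) := by
      rw [ae_all_iff]
      intro j
      exact ae_orb (hτ j) (hfg j) volume hc
    filter_upwards [h3] with x hx
    filter_upwards [ae_all_iff.2 hx] with v hv
    exact prod_congr rfl fun j _ => hv j
  have hint : ∀ c : ℝ → ℝ, Measurable c → ∀ᵐ x ∂μ, ∀ V : ℝ, ∫ v in (0 : ℝ)..V, pf τ f x (c v) =
      ∫ v in (0 : ℝ)..V, pf τ g x (c v) := by
    intro c hc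
    filter_upwards [hverc c hc] with x hx
    intro V
    refine intervalIntegral.integral_congr_ae ?_
    filter_upwards [hx] with v hv
    intro _
    exact hv
  constructor
  · have h3 := h1.const_mul (‖(Q : ℂ) ^ n‖ ^ 2)
    rw [mul_zero] at h3
    refine h3.congr fun N => ?_
    rw [← integral_const_mul]
    refine integral_congr_ae ?_
    filter_upwards [hver, hint _ (avP_meas (P := P) a)] with x hx1 hx2
    rw [← mul_pow, ← norm_mul]
    congr 2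
    unfold dl
    simp only [epf]
    rw [intervalIntegral.integral_const_mul, ← mul_sum, ← mul_sub, hx2, sum_congr rfl fun m _ => hx1 m]
    rw [mul_left_comm (1 / (N : ℂ)), ← mul_assoc ((Q : ℂ) ^ n), mul_inv_cancel₀ hQn, one_mul]
  · intro hS
    obtain ⟨h2, h2'⟩ := h2 hS
    constructor
    · unfold Cl at h2 ⊢
      filter_upwards [h2, hver, hint _ (avP_meas (P := P) a)] with x hx hx1 hx2
      have h3 := hx.const_mul ((Q : ℂ) ^ n)
      rw [mul_zero] at h3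
      refine h3.congr fun N => ?_
      simp only [epf]
      rw [intervalIntegral.integral_const_mul, ← mul_sum, ← mul_sub, hx2, sum_congr rfl fun m _ => hx1 m]
      rw [mul_left_comm (1 / (N : ℂ)), ← mul_assoc ((Q : ℂ) ^ n), mul_inv_cancel₀ hQn, one_mul]
    intro s hs
    have hsm : Measurable fun v : ℝ => s * v := measurable_const.mul measurable_id
    filter_upwards [h2' s hs, hver, hint _ hsm] with x hx hx1 hx2
    intro L hL
    have h3 := hx (((Q : ℂ) ^ n)⁻¹ * L) (by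
      refine (hL.const_mul (((Q : ℂ) ^ n)⁻¹)).congr fun V => ?_
      simp only [epf]
      rw [intervalIntegral.integral_const_mul, hx2]
      ring)
    have h4 := h3.const_mul ((Q : ℂ) ^ n)
    rw [← mul_assoc, mul_inv_cancel₀ hQn, one_mul] at h4
    refine h4.congr fun N => ?_
    simp only [epf]
    rw [← mul_sum, sum_congr rfl fun m _ => hx1 m, mul_left_comm (1 / (N : ℂ)), ← mul_assoc ((Q : ℂ) ^ n),
      mul_inv_cancel₀ hQn, one_mul]

end Pool.Agent.U587.PT
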