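import Pool.Agent.U587.PT.Bad
import Pool.Agent.U587.DX.Dense

set_option autoImplicit false

/-!
Transfer from Lipschitz families to all bounded functions, in the mean.
-/

namespace Pool.Agent.U587.PT

open MeasureTheory Filter Finset
open Pool.Agent.Y957.MC (IsFlow Mod Adm)
open Pool.Agent.U587.ET (prod_diff_c norm_prod_le_one exists_small)
open scoped Topology ENNReal

universe u

variable {X : Type u} [mX : MeasurableSpace X] {μ : Measure X} {n : ℕ} {τ : Fin n → ℝ → X → X}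

/-- the difference of the averages -/
noncomputable def dl (τ : Fin n → ℝ → X → X) (f : Fin n → X → ℂ) (P : Polynomial ℝ) (a : ℝ) (N : ℕ) (x : X) : ℂ :=
  (1 / (N : ℂ)) * (∑ m ∈ Icc 1 N, pf τ f x (a * P.eval (m : ℝ)) - ∫ v in (0 : ℝ)..N, pf τ f x (a * P.eval v))

lemma meas_sr {E : Type*} [MeasurableSpace E] {H : X → ℝ → E} (h : Measurable fun q : X × ℝ => H q.1 q.2) (c : ℝ) :
    Measurable fun x => H x c := h.comp (measurable_id.prodMk measurable_const)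

lemma meas_cv {E : Type*} [MeasurableSpace E] {H : X → ℝ → E} (h : Measurable fun q : X × ℝ => H q.1 q.2) {c : ℝ → ℝ}
    (hc : Measurable c) : Measurable fun q : X × ℝ => H q.1 (c q.2) :=
  h.comp (measurable_fst.prodMk (hc.comp measurable_snd))

lemma meas_int {H : X → ℝ → ℂ} (h : Measurable fun q : X × ℝ => H q.1 q.2) (N : ℕ) :
    Measurable fun x => ∫ v in (0 : ℝ)..N, H x v := by
  have h1 : (fun x => ∫ v in (0 : ℝ)..N, H x v) = fun x => ∫ v in Set.Ioc (0 : ℝ) N, H x v := by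
    funext x
    exact intervalIntegral.integral_of_le (Nat.cast_nonneg _)
  rw [h1]
  exact (h.stronglyMeasurable.integral_prod_right' (ν := volume.restrict (Set.Ioc (0 : ℝ) N))).measurable

lemma meas_intR {H : X → ℝ → ℝ} (h : Measurable fun q : X × ℝ => H q.1 q.2) (N : ℕ) :
    Measurable fun x => ∫ v in (0 : ℝ)..N, H x v := by
  have h1 : (fun x => ∫ v in (0 : ℝ)..N, H x v) = fun x => ∫ v in Set.Ioc (0 : ℝ) N, H x v := by
    funext x
    exact intervalIntegral.integral_of_le (Nat.cast_nonneg _)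
  rw [h1]
  exact (h.stronglyMeasurable.integral_prod_right' (ν := volume.restrict (Set.Ioc (0 : ℝ) N))).measurable

lemma avP_meas {P : Polynomial ℝ} (a : ℝ) : Measurable fun v : ℝ => a * P.eval v :=
  measurable_const.mul P.continuous.measurable

lemma dl_meas (hτ : ∀ j, IsFlow μ (τ j)) {f : Fin n → X → ℂ} (hf : ∀ j, Measurable (f j)) (P : Polynomial ℝ) (a : ℝ)
    (N : ℕ) : Measurable (dl τ f P a N) := by
  have h0 : Measurable fun q : X × ℝ => pf τ f q.1 q.2 := pf_meas hτ hf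
  have h1 : ∀ c : ℝ, Measurable fun x => pf τ f x c := fun c => meas_sr h0 c
  have h2 : Measurable fun x => ∫ v in (0 : ℝ)..N, pf τ f x (a * P.eval v) :=
    meas_int (meas_cv h0 (avP_meas a)) N
  unfold dl
  exact measurable_const.mul ((Finset.measurable_sum _ fun m _ => h1 _).sub h2)

omit mX in
lemma pf_bd1 {f : Fin n → X → ℂ} (hf1 : ∀ j x, ‖f j x‖ ≤ 1) (x : X) (v : ℝ) : ‖pf τ f x v‖ ≤ 1 :=
  norm_prod_le_one _ _ fun j _ => hf1 j _

omit mX in
lemma dl_bd {f : Fin n → X → ℂ} (hf1 : ∀ j x, ‖f j x‖ ≤ 1) (P : Polynomial ℝ) (a : ℝ) (N : ℕ) (x : X) :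
    ‖dl τ f P a N x‖ ≤ 2 := by
  unfold dl
  rw [norm_mul, norm_div, norm_one, Complex.norm_natCast]
  rcases Nat.eq_zero_or_pos N with hN | hN
  · rw [hN]; simp
  · have hN' : (0 : ℝ) < N := Nat.cast_pos.2 hN
    rw [one_div, inv_mul_le_iff₀ hN']
    have h1 : ‖∑ m ∈ Icc 1 N, pf τ f x (a * P.eval (m : ℝ))‖ ≤ N := by
      refine (norm_sum_le _ _).trans ((sum_le_sum fun m _ => pf_bd1 hf1 x _).trans ?_)
      simp
    have h2 : ‖∫ v in (0 : ℝ)..N, pf τ f x (a * P.eval v)‖ ≤ 1 * |(N : ℝ) - 0| :=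
      intervalIntegral.norm_integral_le_of_norm_le_const fun v _ => pf_bd1 hf1 x _
    rw [sub_zero, abs_of_pos hN', one_mul] at h2
    refine (norm_sub_le _ _).trans ?_
    linarith

/-- the error -/
noncomputable def DD (τ : Fin n → ℝ → X → X) (f g : Fin n → X → ℂ) (x : X) (v : ℝ) : ℝ :=
  ∑ j, ‖f j (τ j v x) - g j (τ j v x)‖

omit mX in
lemma pf_sub {f g : Fin n → X → ℂ} (hf1 : ∀ j x, ‖f j x‖ ≤ 1) (hg1 : ∀ j x, ‖g j x‖ ≤ 1) (x : X) (v : ℝ) :
    ‖pf τ f x v - pf τ g x v‖ ≤ DD τ f g x v :=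
  prod_diff_c _ _ _ (fun j _ => hf1 j _) fun j _ => hg1 j _

lemma DD_meas (hτ : ∀ j, IsFlow μ (τ j)) {f g : Fin n → X → ℂ} (hf : ∀ j, Measurable (f j))
    (hg : ∀ j, Measurable (g j)) : Measurable fun q : X × ℝ => DD τ f g q.1 q.2 := by
  have hE : ∀ j, Measurable fun y => ‖f j y - g j y‖ := fun j => ((hf j).sub (hg j)).norm
  exact Finset.measurable_sum _ fun j _ => (hE j).comp ((hτ j).meas.comp (measurable_snd.prodMk measurable_fst))

omit mX in
lemma DD_bd {f g : Fin n → X → ℂ} (hf1 : ∀ j x, ‖f j x‖ ≤ 1) (hg1 : ∀ j x, ‖g j x‖ ≤ 1) (x : X) (v : ℝ) :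
    0 ≤ DD τ f g x v ∧ DD τ f g x v ≤ 2 * n := by
  refine ⟨sum_nonneg fun j _ => norm_nonneg _, ?_⟩
  unfold DD
  calc ∑ j, ‖f j (τ j v x) - g j (τ j v x)‖ ≤ ∑ _j : Fin n, (2 : ℝ) :=
        sum_le_sum fun j _ => (norm_sub_le _ _).trans (by linarith [hf1 j (τ j v x), hg1 j (τ j v x)])
    _ = _ := by simp; ring

lemma DD_int [IsProbabilityMeasure μ] (hτ : ∀ j, IsFlow μ (τ j)) {f g : Fin n → X → ℂ} (hf : ∀ j, Measurable (f j))
    (hg : ∀ j, Measurable (g j)) (hf1 : ∀ j x, ‖f j x‖ ≤ 1) (hg1 : ∀ j x, ‖g j x‖ ≤ 1) (c : ℝ) :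
    ∫ x, DD τ f g x c ∂μ = ∑ j, ∫ x, ‖f j x - g j x‖ ∂μ := by
  unfold DD
  rw [integral_finsetSum]
  · refine sum_congr rfl fun j _ => ?_
    have h5 := (hτ j).mp c
    have hE : Measurable fun y => ‖f j y - g j y‖ := ((hf j).sub (hg j)).norm
    rw [← integral_map (φ := τ j c) (f := fun y => ‖f j y - g j y‖) h5.measurable.aemeasurable
      (by rw [h5.map_eq]; exact hE.aestronglyMeasurable), h5.map_eq]
  · intro j _
    have hE : Measurable fun y => ‖f j y - g j y‖ := ((hf j).sub (hg j)).norm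
    refine Integrable.of_bound (C := 2) (hE.comp ((hτ j).mp c).measurable).aestronglyMeasurable (ae_of_all _ fun x => ?_)
    simp only [norm_norm]
    exact (norm_sub_le _ _).trans (by linarith [hf1 j (τ j c x), hg1 j (τ j c x)])

lemma ii_pf (hτ : ∀ j, IsFlow μ (τ j)) {f : Fin n → X → ℂ} (hf : ∀ j, Measurable (f j))
    (hf1 : ∀ j x, ‖f j x‖ ≤ 1) (x : X) {c : ℝ → ℝ} (hc : Measurable c) (u v : ℝ) :
    IntervalIntegrable (fun v => pf τ f x (c v)) volume u v := by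
  refine (intervalIntegrable_const (c := (1 : ℝ))).mono_fun ?_ (ae_of_all _ fun y => ?_)
  · exact ((pf_meas_v hτ hf x).comp hc).aestronglyMeasurable
  · rw [norm_one]
    exact pf_bd1 hf1 x _

lemma ii_DD (hτ : ∀ j, IsFlow μ (τ j)) {f g : Fin n → X → ℂ} (hf : ∀ j, Measurable (f j))
    (hg : ∀ j, Measurable (g j)) (hf1 : ∀ j x, ‖f j x‖ ≤ 1) (hg1 : ∀ j x, ‖g j x‖ ≤ 1) (x : X) {c : ℝ → ℝ}
    (hc : Measurable c) (u v : ℝ) : IntervalIntegrable (fun v => DD τ f g x (c v)) volume u v := by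
  have h0 : Measurable fun q : X × ℝ => DD τ f g q.1 q.2 := DD_meas hτ hf hg
  have h1 : Measurable fun v => DD τ f g x v := h0.comp (measurable_const.prodMk measurable_id)
  refine (intervalIntegrable_const (c := (2 * n : ℝ))).mono_fun (h1.comp hc).aestronglyMeasurable
    (ae_of_all _ fun y => ?_)
  change ‖DD τ f g x (c y)‖ ≤ ‖(2 * n : ℝ)‖
  rw [Real.norm_of_nonneg (DD_bd hf1 hg1 x _).1, Real.norm_of_nonneg (by positivity)]
  exact (DD_bd hf1 hg1 x _).2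

lemma dl_sub (hτ : ∀ j, IsFlow μ (τ j)) {f g : Fin n → X → ℂ} (hf : ∀ j, Measurable (f j))
    (hg : ∀ j, Measurable (g j)) (hf1 : ∀ j x, ‖f j x‖ ≤ 1) (hg1 : ∀ j x, ‖g j x‖ ≤ 1) (P : Polynomial ℝ) (a : ℝ)
    (N : ℕ) (x : X) : ‖dl τ f P a N x‖ ≤ ‖dl τ g P a N x‖ + (1 / (N : ℝ)) * (∑ m ∈ Icc 1 N,
      DD τ f g x (a * P.eval (m : ℝ)) + ∫ v in (0 : ℝ)..N, DD τ f g x (a * P.eval v)) := by
  have e1 : dl τ f P a N x = dl τ g P a N x + (1 / (N : ℂ)) * (∑ m ∈ Icc 1 N, (pf τ f x (a * P.eval (m : ℝ)) -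
      pf τ g x (a * P.eval (m : ℝ))) - ∫ v in (0 : ℝ)..N, (pf τ f x (a * P.eval v) - pf τ g x (a * P.eval v))) := by
    rw [intervalIntegral.integral_sub (ii_pf hτ hf hf1 x (avP_meas a) _ _) (ii_pf hτ hg hg1 x (avP_meas a) _ _),
      sum_sub_distrib]
    unfold dl
    ring
  rw [e1]
  refine (norm_add_le _ _).trans (add_le_add le_rfl ?_)
  rw [norm_mul, norm_div, norm_one, Complex.norm_natCast]
  refine mul_le_mul_of_nonneg_left ?_ (by positivity)
  refine (norm_sub_le _ _).trans (add_le_add ?_ ?_)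
  · exact (norm_sum_le _ _).trans (sum_le_sum fun m _ => pf_sub hf1 hg1 x _)
  · refine intervalIntegral.norm_integral_le_of_norm_le (Nat.cast_nonneg _) ?_
      (ii_DD hτ hf hg hf1 hg1 x (avP_meas a) _ _)
    exact ae_of_all _ fun v _ => pf_sub hf1 hg1 x _

/-- approximation in the mean -/
theorem tr_L1 [IsProbabilityMeasure μ] (hτ : ∀ j, IsFlow μ (τ j)) {P : Polynomial ℝ} {a : ℝ} {f : Fin n → X → ℂ}
    (hf : ∀ j, Measurable (f j)) (hf1 : ∀ j x, ‖f j x‖ ≤ 1) {g : ℕ → Fin n → X → ℂ} (hg : ∀ i j, Measurable (g i j))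
    (hg1 : ∀ i j x, ‖g i j x‖ ≤ 1) (hfg : ∀ j, Tendsto (fun i => ∫ x, ‖f j x - g i j x‖ ∂μ) atTop (𝓝 0))
    (h : ∀ i, Cl μ τ (g i) P a) :
    Tendsto (fun N : ℕ => ∫ x, ‖dl τ f P a N x‖ ∂μ) atTop (𝓝 0) := by
  have hnice : ∀ i, Tendsto (fun N => ∫ x, ‖dl τ (g i) P a N x‖ ∂μ) atTop (𝓝 0) := by
    intro i
    have h1 : Tendsto (fun N => ∫ x, ‖dl τ (g i) P a N x‖ ∂μ) atTop (𝓝 (∫ _x : X, (0 : ℝ) ∂μ)) := by
      refine tendsto_integral_of_dominated_convergence (fun _ => 2)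
        (fun N => (dl_meas hτ (hg i) P a N).norm.aestronglyMeasurable) (integrable_const _)
        (fun N => ae_of_all _ fun x => ?_) ?_
      · rw [norm_norm]
        exact dl_bd (hg1 i) P a N x
      · filter_upwards [h i] with x hx
        have h2 := hx.norm
        rw [norm_zero] at h2
        exact h2
    rwa [integral_zero] at h1
  have hsumlim : Tendsto (fun i => ∑ j, ∫ x, ‖f j x - g i j x‖ ∂μ) atTop (𝓝 0) := by
    have := tendsto_finsetSum (Finset.univ : Finset (Fin n)) fun j _ => hfg j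
    simpa using this
  rw [Metric.tendsto_nhds]
  intro ε hε
  obtain ⟨i, hi⟩ := (hsumlim.eventually (gt_mem_nhds (by positivity : (0 : ℝ) < ε / 4))).exists
  filter_upwards [(hnice i).eventually (gt_mem_nhds (half_pos hε)), eventually_ge_atTop 1] with N hN hN1
  have hN0 : (0 : ℝ) < N := by exact_mod_cast hN1
  rw [dist_zero_right, Real.norm_of_nonneg (integral_nonneg fun x => norm_nonneg _)]
  have hAi : ∀ u : Fin n → X → ℂ, (∀ j, Measurable (u j)) → (∀ j x, ‖u j x‖ ≤ 1) →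
      Integrable (fun x => ‖dl τ u P a N x‖) μ := by
    intro u hu hu1
    refine Integrable.of_bound (C := 2) (dl_meas hτ hu P a N).norm.aestronglyMeasurable (ae_of_all _ fun x => ?_)
    rw [norm_norm]
    exact dl_bd hu1 P a N x
  have hDm : Measurable fun q : X × ℝ => DD τ f (g i) q.1 q.2 := DD_meas hτ hf (hg i)
  have hDi : ∀ c : ℝ, Integrable (fun x => DD τ f (g i) x c) μ := by
    intro c
    refine Integrable.of_bound (C := 2 * n) (meas_sr hDm c).aestronglyMeasurable (ae_of_all _ fun x => ?_)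
    rw [Real.norm_of_nonneg (DD_bd hf1 (hg1 i) x _).1]
    exact (DD_bd hf1 (hg1 i) x _).2
  have hDc : Measurable fun q : X × ℝ => DD τ f (g i) q.1 (a * P.eval q.2) := meas_cv hDm (avP_meas a)
  have hVb : ∀ x, ‖∫ v in (0 : ℝ)..N, DD τ f (g i) x (a * P.eval v)‖ ≤ (2 * n) * |(N : ℝ) - 0| := fun x =>
    intervalIntegral.norm_integral_le_of_norm_le_const fun v _ => by
      rw [Real.norm_of_nonneg (DD_bd hf1 (hg1 i) x _).1]
      exact (DD_bd hf1 (hg1 i) x _).2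
  have hVi : Integrable (fun x => ∫ v in (0 : ℝ)..N, DD τ f (g i) x (a * P.eval v)) μ :=
    Integrable.of_bound (C := (2 * n) * |(N : ℝ) - 0|) (meas_intR hDc N).aestronglyMeasurable (ae_of_all _ hVb)
  have hle : ∫ x, ‖dl τ f P a N x‖ ∂μ ≤ ∫ x, (‖dl τ (g i) P a N x‖ + (1 / (N : ℝ)) * (∑ m ∈ Icc 1 N,
      DD τ f (g i) x (a * P.eval (m : ℝ)) + ∫ v in (0 : ℝ)..N, DD τ f (g i) x (a * P.eval v))) ∂μ := by
    refine integral_mono_of_nonneg (ae_of_all _ fun x => norm_nonneg _) ((hAi _ (hg i) (hg1 i)).add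
      (((integrable_finsetSum _ fun m _ => hDi _).add hVi).const_mul _)) (ae_of_all _ fun x => ?_)
    exact dl_sub hτ hf (hg i) hf1 (hg1 i) P a N x
  obtain ⟨η, hη⟩ : ∃ η : ℝ, η = ∑ j, ∫ x, ‖f j x - g i j x‖ ∂μ := ⟨_, rfl⟩
  rw [← hη] at hi
  have hV : ∫ x, (∫ v in (0 : ℝ)..N, DD τ f (g i) x (a * P.eval v)) ∂μ = N * η := by
    have hN00 : (0 : ℝ) ≤ N := Nat.cast_nonneg _
    simp_rw [intervalIntegral.integral_of_le hN00]
    rw [integral_integral_swap]
    · simp_rw [DD_int hτ hf (hg i) hf1 (hg1 i)]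
      rw [← hη, setIntegral_const, measureReal_def, Real.volume_Ioc, sub_zero, ENNReal.toReal_ofReal hN00, smul_eq_mul]
    · refine Integrable.of_bound (C := 2 * n) hDc.aestronglyMeasurable (ae_of_all _ fun z => ?_)
      have h7 := DD_bd (τ := τ) hf1 (hg1 i) z.1 (a * P.eval z.2)
      change ‖DD τ f (g i) z.1 (a * P.eval z.2)‖ ≤ _
      rw [Real.norm_of_nonneg h7.1]
      exact h7.2
  have hI : ∫ x, (‖dl τ (g i) P a N x‖ + (1 / (N : ℝ)) * (∑ m ∈ Icc 1 N,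
      DD τ f (g i) x (a * P.eval (m : ℝ)) + ∫ v in (0 : ℝ)..N, DD τ f (g i) x (a * P.eval v))) ∂μ =
      ∫ x, ‖dl τ (g i) P a N x‖ ∂μ + 2 * η := by
    have hS1 : Integrable (fun x => ∑ m ∈ Icc 1 N, DD τ f (g i) x (a * P.eval (m : ℝ))) μ :=
      integrable_finsetSum _ fun m _ => hDi _
    have hS2 : Integrable (fun x => (1 / (N : ℝ)) * (∑ m ∈ Icc 1 N,
      DD τ f (g i) x (a * P.eval (m : ℝ)) + ∫ v in (0 : ℝ)..N, DD τ f (g i) x (a * P.eval v))) μ :=
      (hS1.add hVi).const_mul _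
    rw [integral_add (hAi _ (hg i) (hg1 i)) hS2,
      integral_const_mul, integral_add hS1 hVi, hV,
      integral_finsetSum _ fun m _ => hDi _]
    simp_rw [DD_int hτ hf (hg i) hf1 (hg1 i)]
    rw [← hη, sum_const, Nat.card_Icc, nsmul_eq_mul]
    have : ((N + 1 - 1 : ℕ) : ℝ) = N := by norm_num
    rw [this]
    field_simp
    ring
  rw [hI] at hle
  linarith

/-- in the mean of order two -/
theorem tr_L2 [IsProbabilityMeasure μ] (hτ : ∀ j, IsFlow μ (τ j)) {P : Polynomial ℝ} {a : ℝ} {f : Fin n → X → ℂ}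
    (hf : ∀ j, Measurable (f j)) (hf1 : ∀ j x, ‖f j x‖ ≤ 1) {g : ℕ → Fin n → X → ℂ} (hg : ∀ i j, Measurable (g i j))
    (hg1 : ∀ i j x, ‖g i j x‖ ≤ 1) (hfg : ∀ j, Tendsto (fun i => ∫ x, ‖f j x - g i j x‖ ∂μ) atTop (𝓝 0))
    (h : ∀ i, Cl μ τ (g i) P a) :
    Tendsto (fun N : ℕ => ∫ x, ‖dl τ f P a N x‖ ^ 2 ∂μ) atTop (𝓝 0) := by
  have h1 := (tr_L1 hτ hf hf1 hg hg1 hfg h).const_mul 2
  rw [mul_zero] at h1
  refine squeeze_zero (fun N => integral_nonneg fun x => sq_nonneg _) (fun N => ?_) h1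
  rw [← integral_const_mul]
  refine integral_mono_of_nonneg (ae_of_all _ fun x => sq_nonneg _) ?_ (ae_of_all _ fun x => ?_)
  · refine Integrable.of_bound (C := 4) (measurable_const.mul (dl_meas hτ hf P a N).norm).aestronglyMeasurable
      (ae_of_all _ fun x => ?_)
    have h2 := dl_bd (τ := τ) hf1 P a N x
    rw [Real.norm_of_nonneg (by positivity)]
    linarith
  · have h2 := dl_bd (τ := τ) hf1 P a N x
    have h3 := norm_nonneg (dl τ f P a N x)
    simp only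
    nlinarith

end Pool.Agent.U587.PT
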